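import Pool.Agent.MS.E.EndB
import Pool.Agent.MS.H.Basic

/-!
# MSB-Cof: Theorem C from Theorems A and B; divisibility of the kernel of `h_n`
(section 1 of /team-store/e58350_A6.md)
-/

set_option autoImplicit false

namespace Pool.Agent.MS.PB

open Pool.Agent.BrCyc

/-- `h_{m} (y) = h_{m+j} (p^j y)` -/
theorem hh_iter' {p : ℕ} (hM : HMulProp p) {L : Type} [Field L] (z : MuSys p L) (m j : ℕ)
    (x : K2 L) : hh (p ^ (m + j)) (z.z (m + j)) (p ^ j • x) = hh (p ^ m) (z.z m) x := by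
  induction j generalizing x with
  | zero => rw [pow_zero, one_smul, add_zero]
  | succ j ih =>
    rw [pow_succ' p j, mul_smul, ← add_assoc, hM L (m + j) _ _ (z.prim (m + j + 1)), z.succ, ih]

/-- `(TOR)`: torsion is invisible over a field with all `p`-power roots of unity -/
theorem hh_torsion {p : ℕ} (hM : HMulProp p) {L : Type} [Field L] (z : MuSys p L) (m j : ℕ)
    (x : K2 L) (hx : p ^ j • x = 0) : hh (p ^ m) (z.z m) x = 0 := by
  rw [← hh_iter' hM z m j, hx, map_zero]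

/-- `h_m (x) = p^j h_{m+j} (x)` -/
theorem hh_smul {p : ℕ} (hM : HMulProp p) {L : Type} [Field L] (z : MuSys p L) (m j : ℕ)
    (x : K2 L) : hh (p ^ m) (z.z m) x = p ^ j • hh (p ^ (m + j)) (z.z (m + j)) x := by
  rw [← hh_iter' hM z m j, map_nsmul]

theorem CofAB {p : ℕ} [Fact p.Prime] (hp2 : p ≠ 2) (hM : HMulProp p) (hK : KProp p)
    {F : Type} [Field F] {ζ : F} (hζ : IsPrimitiveRoot ζ p) (hA : AAt p ζ) (hB : BAt p ζ) :
    CAt p ζ := by
  have hp : p.Prime := Fact.out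
  have hodd : Odd p := hp.odd_of_ne_two hp2
  have : NeZero p := ⟨hp.ne_zero⟩
  intro x hx
  obtain ⟨n, k, L, _, f, z, hn, hf, hz1, hk⟩ := hA x hx
  have hpK : ∀ y : K2 F, p • hh p ζ y = 0 := by
    intro y
    exact hh_nsmul hodd hζ y
  have key : ∀ (n : ℕ) (k : K2 F), hh (p ^ (n + 1)) (z.z (n + 1)) (K2.map f k) = brMap f x →
      ∃ k' : K2 F, hh p (z.z 1) (K2.map f k') = brMap f x := by
    intro n
    induction n with
    | zero =>
      intro k hk
      rw [zero_add, hh_one] at hk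
      exact ⟨k, hk⟩
    | succ n ih =>
      intro k hk
      have h1 : brMap f (hh p ζ k) = 0 := by
        rw [← hh_map hodd hζ, hz1, ← hh_one]
        have h2 := hh_smul hM z 1 (n + 1) (K2.map f k)
        rw [add_comm 1 (n + 1)] at h2
        rw [h2, hk, pow_succ, mul_smul, ← map_nsmul (brMap f), hx, map_zero, smul_zero]
      obtain ⟨κ, j, hj, hκ⟩ := hK F L f ζ (hh p ζ k) hζ hf (hpK k) h1
      obtain ⟨k₁, τ, j', hj', hτ⟩ := hB (k - κ) (by rw [map_sub, hκ, sub_self])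
      refine ih k₁ ?_
      have hk' : k = p • k₁ + (τ + κ) := by
        rw [← add_assoc, ← hτ]
        abel
      have hto : p ^ (j + j') • K2.map f (τ + κ) = 0 := by
        rw [← map_nsmul, smul_add, pow_add, mul_smul, hj', smul_zero, mul_comm, mul_smul, hj,
          smul_zero, add_zero, map_zero]
      rw [← hk, hk', map_add, map_add, hh_torsion hM z _ _ _ hto, add_zero, map_nsmul]
      exact (hh_iter' hM z (n + 1) 1 _ ▸ by rw [pow_one])
  obtain ⟨n, rfl⟩ : ∃ m, n = m + 1 := ⟨n - 1, by omega⟩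
  obtain ⟨k', hk'⟩ := key n k hk
  have h1 : brMap f (x - hh p ζ k') = 0 := by
    rw [map_sub, ← hk', ← hh_map hodd hζ, hz1, sub_self]
  obtain ⟨κ, j, -, hκ⟩ := hK F L f ζ (x - hh p ζ k') hζ hf
    (by rw [smul_sub, hx, hpK, sub_self]) h1
  exact ⟨k' + κ, by rw [map_add, hκ]; abel⟩

/-- `(B_n)`: over a field with all `p`-power roots of unity -/
theorem Bn {p : ℕ} [Fact p.Prime] (hM : HMulProp p) {L : Type} [Field L] (z : MuSys p L)
    (hB : BAt p (z.z 1)) (n : ℕ) (k : K2 L) (hk : hh (p ^ n) (z.z n) k = 0) :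
    ∃ (k₁ τ : K2 L) (j : ℕ), p ^ j • τ = 0 ∧ k = p ^ n • k₁ + τ := by
  induction n generalizing k with
  | zero => exact ⟨k, 0, 0, by rw [smul_zero], by rw [pow_zero, one_smul, add_zero]⟩
  | succ n ih =>
    have h1 : hh p (z.z 1) k = 0 := by
      rw [← hh_one, hh_smul hM z 1 n, add_comm 1 n, hk, smul_zero]
    obtain ⟨k₁, τ, j, hτ, rfl⟩ := hB k h1
    have h2 : hh (p ^ n) (z.z n) k₁ = 0 := by
      have h3 : p ^ j • τ = 0 := hτ
      rw [map_add, hh_torsion hM z _ _ _ h3, add_zero] at hk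
      have h4 := hh_iter' hM z n 1 k₁
      rw [pow_one] at h4
      rw [← h4, hk]
    obtain ⟨k₂, τ', j', hτ', rfl⟩ := ih k₁ h2
    refine ⟨k₂, p • τ' + τ, j' + j, ?_, ?_⟩
    · rw [smul_add, pow_add, mul_smul _ _ τ, hτ, smul_zero, add_zero, mul_comm, mul_smul,
        smul_comm (p ^ j') p, hτ', smul_zero, smul_zero]
    · rw [smul_add, ← mul_smul, ← pow_succ', add_assoc]

end Pool.Agent.MS.PB
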