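import Pool.Agent.MS.E.Defs

/-!
# MSB-Reg: elements of `F(t)` which are regular at a point

`RegAt c x y`: `x = r / s` with `s(c) ≠ 0` and value `y = r(c)/s(c)`. All closure properties are direct:
sum `(r s' + r' s)/(s s')`, product, inverse (swap `r` and `s`; `r(c) = y s(c) ≠ 0`), `cT F y` (`r = C y`, `s = 1`),
polynomials (`r = f`, `s = 1`).

`v_ac`: `acOf_v_of_not_dvd`, `acOf_ac_of_not_dvd` (helper6.MK.Ufd): `x = r/s` with `X - c` dividing neither
(`dvd_iff_isRoot`), `v r = v s = 0`, `ac r = r(c)`, `ac s = s(c)`.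

Matrices: entries of products and sums; `det` is a polynomial in the entries (`Matrix.det_apply`, sums,
products, signs), the adjugate too (`Matrix.adjugate_apply`: determinant of `updateRow`), the inverse is
`det⁻¹ • adjugate`.

`sp_map`: on symbols `{e, e'}`: `Ψ e` has `v = 0` and `ac = i e`.
-/

set_option autoImplicit false

namespace Pool.Agent.MS.PB

open scoped Matrix
open Polynomial

variable {F : Type} [Field F] {c : F}

theorem RegAt.poly (c : F) (f : F[X]) : RegAt c (algebraMap F[X] (FT F) f) (f.eval c) :=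
  ⟨f, 1, by rw [eval_one]; exact one_ne_zero, by rw [map_one, mul_one], by rw [eval_one, mul_one]⟩

theorem RegAt.const (c y : F) : RegAt c (cT F y) y := by
  have h := RegAt.poly c (C y)
  rw [eval_C] at h
  exact h

theorem RegAt.zero (c : F) : RegAt c 0 0 := by
  have h := RegAt.const c 0
  rw [map_zero] at h
  exact h

theorem RegAt.one (c : F) : RegAt c 1 1 := by
  have h := RegAt.const c 1
  rw [map_one] at h
  exact h

theorem RegAt.add {x x' : FT F} {y y' : F} (h : RegAt c x y) (h' : RegAt c x' y') :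
    RegAt c (x + x') (y + y') := by
  obtain ⟨r, s, h0, h1, h2⟩ := h
  obtain ⟨r', s', h0', h1', h2'⟩ := h'
  refine ⟨r * s' + r' * s, s * s', ?_, ?_, ?_⟩
  · rw [eval_mul]
    exact mul_ne_zero h0 h0'
  · rw [map_mul, map_add, map_mul, map_mul]
    linear_combination (algebraMap F[X] (FT F) s') * h1 + (algebraMap F[X] (FT F) s) * h1'
  · rw [eval_add, eval_mul, eval_mul, eval_mul]
    linear_combination (s'.eval c) * h2 + (s.eval c) * h2'

theorem RegAt.neg {x : FT F} {y : F} (h : RegAt c x y) : RegAt c (-x) (-y) := by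
  obtain ⟨r, s, h0, h1, h2⟩ := h
  refine ⟨-r, s, h0, ?_, ?_⟩
  · rw [map_neg, neg_mul, h1]
  · rw [eval_neg, h2, neg_mul]

theorem RegAt.mul {x x' : FT F} {y y' : F} (h : RegAt c x y) (h' : RegAt c x' y') :
    RegAt c (x * x') (y * y') := by
  obtain ⟨r, s, h0, h1, h2⟩ := h
  obtain ⟨r', s', h0', h1', h2'⟩ := h'
  refine ⟨r * r', s * s', ?_, ?_, ?_⟩
  · rw [eval_mul]
    exact mul_ne_zero h0 h0'
  · rw [map_mul, map_mul, ← h1, ← h1']
    ring
  · rw [eval_mul, eval_mul, h2, h2']
    ring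

theorem RegAt.sum {α : Type} (s : Finset α) {x : α → FT F} {y : α → F}
    (h : ∀ a ∈ s, RegAt c (x a) (y a)) : RegAt c (∑ a ∈ s, x a) (∑ a ∈ s, y a) := by
  classical
  induction s using Finset.induction_on with
  | empty =>
    rw [Finset.sum_empty, Finset.sum_empty]
    exact RegAt.zero c
  | insert a s ha ih =>
    rw [Finset.sum_insert ha, Finset.sum_insert ha]
    exact (h a (Finset.mem_insert_self a s)).add
      (ih (fun b hb => h b (Finset.mem_insert_of_mem hb)))

theorem RegAt.prod {α : Type} (s : Finset α) {x : α → FT F} {y : α → F}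
    (h : ∀ a ∈ s, RegAt c (x a) (y a)) : RegAt c (∏ a ∈ s, x a) (∏ a ∈ s, y a) := by
  classical
  induction s using Finset.induction_on with
  | empty =>
    rw [Finset.prod_empty, Finset.prod_empty]
    exact RegAt.one c
  | insert a s ha ih =>
    rw [Finset.prod_insert ha, Finset.prod_insert ha]
    exact (h a (Finset.mem_insert_self a s)).mul
      (ih (fun b hb => h b (Finset.mem_insert_of_mem hb)))

theorem RegAt.ne_zero {x : FT F} {y : F} (h : RegAt c x y) (hy : y ≠ 0) : x ≠ 0 := by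
  obtain ⟨r, s, h0, h1, h2⟩ := h
  rintro rfl
  rw [zero_mul] at h1
  have hr : r = 0 := by
    rw [← (IsFractionRing.injective F[X] (FT F)).eq_iff, map_zero]
    exact h1.symm
  rw [hr, eval_zero] at h2
  exact mul_ne_zero hy h0 h2.symm

theorem RegAt.inv {x : FT F} {y : F} (h : RegAt c x y) (hy : y ≠ 0) : RegAt c x⁻¹ y⁻¹ := by
  have hx := h.ne_zero hy
  obtain ⟨r, s, h0, h1, h2⟩ := h
  refine ⟨s, r, ?_, ?_, ?_⟩
  · rw [h2]
    exact mul_ne_zero hy h0
  · rw [← h1, inv_mul_cancel_left₀ hx]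
  · rw [h2, inv_mul_cancel_left₀ hy]

theorem RegAt.v_ac {x : (FT F)ˣ} {y : Fˣ} (h : RegAt c (x : FT F) y) :
    (acPt c).v x = 0 ∧ (acPt c).ac x = y := by
  obtain ⟨r, s, h0, h1, h2⟩ := h
  have hs : ¬ (X - C c) ∣ s := by
    rw [dvd_iff_isRoot]
    exact h0
  have hr : ¬ (X - C c) ∣ r := by
    rw [dvd_iff_isRoot, IsRoot.def, h2]
    exact mul_ne_zero y.ne_zero h0
  have e : (x : FT F) * algebraMap F[X] (FT F) s =
      (algebraMap F[X] (FT F) (X - C c)) ^ (0 : ℤ) * algebraMap F[X] (FT F) r := by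
    rw [zpow_zero, one_mul]
    exact h1
  refine ⟨acOf_v _ _ _ _ hr hs e, ?_⟩
  ext
  have h3 := acOf_ac (K := FT F) (X - C c) (prime_X_sub_C c) (evalRingHom c) (fun a => by
    rw [coe_evalRingHom, dvd_iff_isRoot, IsRoot.def]) hr hs e
  have h4 : ((acPt c).ac x : F) * s.eval c = r.eval c := h3
  rw [h2] at h4
  exact mul_right_cancel₀ h0 h4

/-- regularity of a matrix -/
def RegM {m n : Type} (c : F) (M : Matrix m n (FT F)) (M' : Matrix m n F) : Prop :=
  ∀ i j, RegAt c (M i j) (M' i j)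

theorem RegM.mul {l m n : Type} [Fintype m] {M : Matrix l m (FT F)} {M' : Matrix l m F}
    {Q : Matrix m n (FT F)} {Q' : Matrix m n F} (h : RegM c M M') (h' : RegM c Q Q') :
    RegM c (M * Q) (M' * Q') := by
  intro i j
  rw [Matrix.mul_apply, Matrix.mul_apply]
  exact RegAt.sum _ (fun a _ => (h i a).mul (h' a j))

theorem RegAt.sign {x : FT F} {y : F} (h : RegAt c x y) (u : ℤˣ) : RegAt c (u • x) (u • y) := by
  rcases Int.units_eq_one_or u with rfl | rfl
  · rw [one_smul, one_smul]
    exact h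
  · rw [Units.neg_smul, Units.neg_smul, one_smul, one_smul]
    exact h.neg

theorem RegM.det {n : Type} [Fintype n] [DecidableEq n] {M : Matrix n n (FT F)}
    {M' : Matrix n n F} (h : RegM c M M') : RegAt c M.det M'.det := by
  rw [Matrix.det_apply, Matrix.det_apply]
  exact RegAt.sum _ (fun σ _ => (RegAt.prod _ (fun i _ => h (σ i) i)).sign _)

theorem RegM.adjugate {n : Type} [Fintype n] [DecidableEq n] {M : Matrix n n (FT F)}
    {M' : Matrix n n F} (h : RegM c M M') : RegM c M.adjugate M'.adjugate := by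
  intro i j
  rw [Matrix.adjugate_apply, Matrix.adjugate_apply]
  refine RegM.det ?_
  intro a b
  rw [Matrix.updateRow_apply, Matrix.updateRow_apply]
  split_ifs with hab
  · by_cases hb : b = i
    · subst hb
      rw [Pi.single_eq_same, Pi.single_eq_same]
      exact RegAt.one c
    · rw [Pi.single_eq_of_ne hb, Pi.single_eq_of_ne hb]
      exact RegAt.zero c
  · exact h a b

/-- the inverse of a regular matrix with invertible value is regular -/
theorem RegM.inv {n : Type} [Fintype n] [DecidableEq n] {M : Matrix n n (FT F)}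
    {M' : Matrix n n F} (h : RegM c M M') (hM : IsUnit M') : IsUnit M ∧ RegM c M⁻¹ M'⁻¹ := by
  have hd : M'.det ≠ 0 := ((Matrix.isUnit_iff_isUnit_det M').1 hM).ne_zero
  have hd' : M.det ≠ 0 := h.det.ne_zero hd
  refine ⟨(Matrix.isUnit_iff_isUnit_det M).2 (isUnit_iff_ne_zero.2 hd'), ?_⟩
  intro i j
  rw [Matrix.inv_def, Matrix.inv_def, Matrix.smul_apply, Matrix.smul_apply, smul_eq_mul,
    smul_eq_mul, Ring.inverse_eq_inv', Ring.inverse_eq_inv']
  exact (h.det.inv hd).mul (h.adjugate i j)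

/-- a homomorphism `Ψ : E → F(t)` with regular values `i : E → F` -/
theorem sp_map {E : Type} [Field E] (Ψ : E →+* FT F) (i : E →+* F)
    (h : ∀ e, RegAt c (Ψ e) (i e)) (k : K2 E) :
    spPt c (K2.map Ψ k) = K2.map i k ∧ (acPt c).tameHom (K2.map Ψ k) = 0 := by
  have key : ∀ a : Eˣ, (acPt c).v (Units.map (Ψ : E →* FT F) a) = 0 ∧
      (acPt c).ac (Units.map (Ψ : E →* FT F) a) = Units.map (i : E →* F) a :=
    fun a => RegAt.v_ac (y := Units.map (i : E →* F) a) (h a)
  have h1 : (spPt c).comp (K2.map Ψ) = K2.map i := by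
    refine K2.hom_ext _ _ fun a b => ?_
    rw [AddMonoidHom.comp_apply, K2.map_sy, spPt, AC.leadHom_sy, (key a).2, (key b).2, K2.map_sy]
  have h2 : (acPt c).tameHom.comp (K2.map Ψ) = 0 := by
    refine K2.hom_ext _ _ fun a b => ?_
    rw [AddMonoidHom.comp_apply, K2.map_sy, AC.tameHom_sy,
      AC.tame_of_units _ (key a).1 (key b).1]
    rfl
  exact ⟨DFunLike.congr_fun h1 k, DFunLike.congr_fun h2 k⟩

theorem sp_const (c : F) (k : K2 F) : spPt c (K2.map (cT F) k) = k := by
  have h := (sp_map (c := c) (cT F) (RingHom.id F) (fun e => RegAt.const c e) k).1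
  have h2 : K2.map (RingHom.id F) = AddMonoidHom.id (K2 F) := by
    refine K2.hom_ext _ _ fun a b => ?_
    rw [K2.map_sy]
    rfl
  rw [h, h2]
  rfl

theorem mapT_poly {L : Type} [Field L] (f : F →+* L) (g : F[X]) :
    mapT f (algebraMap F[X] (FT F) g) = algebraMap L[X] (FT L) (g.map f) := by
  rw [mapT, IsFractionRing.map, IsLocalization.map_eq]
  rfl

theorem mapT_cT {L : Type} [Field L] (f : F →+* L) : (mapT f).comp (cT F) = (cT L).comp f := by
  refine RingHom.ext fun y => ?_
  change PB.mapT f (algebraMap F[X] (FT F) (C y)) = algebraMap L[X] (FT L) (C (f y))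
  rw [mapT_poly, map_C]

theorem RegAt.mapT {L : Type} [Field L] (f : F →+* L) {x : FT F} {y : F} (h : RegAt c x y) :
    RegAt (f c) (PB.mapT f x) (f y) := by
  obtain ⟨r, s, h0, h1, h2⟩ := h
  refine ⟨r.map f, s.map f, ?_, ?_, ?_⟩
  · rw [eval_map, eval₂_at_apply]
    exact (map_ne_zero f).2 h0
  · rw [← mapT_poly, ← mapT_poly, ← map_mul, h1]
  · rw [eval_map, eval_map, eval₂_at_apply, eval₂_at_apply, h2, map_mul]

end Pool.Agent.MS.PB
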