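import Pool.Agent.MS.E.FamAlg
import Pool.Agent.MS.E.Reg

/-!
# MSB-Corr: closing the path

`T` over `F(t)` has the values `T0` at `0` and `T1` at `1`, and `T1.act g l = T0` with `(g, l)` over `F`.
Put `γ = (1 - t) 1 + t g` (a matrix over `F[X]`, value `1` at `0` and `g` at `1`; its determinant is a
nonzero element of `F(t)`, as its value at `0` is `1`) and `δ = (1 - t) 1 + t l`. Then `w = T.act γ δ` has the
value `T0.act 1 1 = T0` at `0` and `T1.act g l = T0` at `1`: `RegM.mul`, `RegM.inv`, `RegAt.sum`.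
(For `RegM` of `∑_a γ_{ai} • T a j`: entrywise `RegAt.sum`, `RegAt.mul`.)
-/

set_option autoImplicit false

namespace Pool.Agent.MS.PB

open scoped Matrix
open Polynomial

private theorem regM_act {p : ℕ} {ι V F : Type} [Field F] [Fintype ι] [DecidableEq ι] [Fintype V]
    [DecidableEq V] {c : F} {T : Fam p ι V (FT F)} {T' : Fam p ι V F}
    (r : ∀ i j, RegM c (T i j) (T' i j)) {γ : GL ι (FT F)} {γ' : GL ι F} {δ : GL V (FT F)}
    {δ' : GL V F} (hγ : RegM c (γ : Matrix ι ι (FT F)) (γ' : Matrix ι ι F))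
    (hδ : RegM c (δ : Matrix V V (FT F)) (δ' : Matrix V V F)) (i : ι) (j : Fin p) :
    RegM c (T.act γ δ i j) (T'.act γ' δ' i j) := by
  have h1 : RegM c ((δ⁻¹ : GL V (FT F)) : Matrix V V (FT F))
      ((δ'⁻¹ : GL V F) : Matrix V V F) := by
    rw [Matrix.coe_units_inv, Matrix.coe_units_inv]
    exact (hδ.inv δ'.isUnit).2
  have h2 : RegM c (∑ a, (γ : Matrix ι ι (FT F)) a i • T a j)
      (∑ a, (γ' : Matrix ι ι F) a i • T' a j) := by
    intro u v
    rw [Matrix.sum_apply, Matrix.sum_apply]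
    exact RegAt.sum _ (fun a _ => (hγ a i).mul (r a j u v))
  exact (h1.mul h2).mul hδ

/-- a path in `GL` from `1` to `g` -/
private theorem exists_path {n F : Type} [Field F] [Fintype n] [DecidableEq n] (g : GL n F) :
    ∃ γ : GL n (FT F), RegM 0 (γ : Matrix n n (FT F)) ((1 : GL n F) : Matrix n n F) ∧
      RegM 1 (γ : Matrix n n (FT F)) (g : Matrix n n F) := by
  let P : Matrix n n (FT F) := fun i j => algebraMap F[X] (FT F)
    ((1 - X) * C ((1 : Matrix n n F) i j) + X * C ((g : Matrix n n F) i j))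
  have h0 : RegM 0 P (1 : Matrix n n F) := by
    intro i j
    have h := RegAt.poly (0 : F) ((1 - X) * C ((1 : Matrix n n F) i j) +
      X * C ((g : Matrix n n F) i j))
    have hv : ((1 - X) * C ((1 : Matrix n n F) i j) + X * C ((g : Matrix n n F) i j)).eval 0 =
        (1 : Matrix n n F) i j := by simp
    rw [hv] at h
    exact h
  have h1 : RegM 1 P (g : Matrix n n F) := by
    intro i j
    have h := RegAt.poly (1 : F) ((1 - X) * C ((1 : Matrix n n F) i j) +
      X * C ((g : Matrix n n F) i j))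
    have hv : ((1 - X) * C ((1 : Matrix n n F) i j) + X * C ((g : Matrix n n F) i j)).eval 1 =
        (g : Matrix n n F) i j := by simp
    rw [hv] at h
    exact h
  obtain ⟨u, hu⟩ := (h0.inv isUnit_one).1
  refine ⟨u, ?_, ?_⟩
  · rw [hu]; exact h0
  · rw [hu]; exact h1

theorem exists_corr {p : ℕ} {ι V F : Type} [Field F] [Fintype ι] [DecidableEq ι] [Fintype V]
    [DecidableEq V] (T : Fam p ι V (FT F)) (T0 T1 : Fam p ι V F)
    (r0 : ∀ i j, RegM 0 (T i j) (T0 i j)) (r1 : ∀ i j, RegM 1 (T i j) (T1 i j))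
    (g : GL ι F) (l : GL V F) (h : T1.act g l = T0) :
    ∃ (γ : GL ι (FT F)) (δ : GL V (FT F)), (∀ i j, RegM 0 (T.act γ δ i j) (T0 i j)) ∧
      ∀ i j, RegM 1 (T.act γ δ i j) (T0 i j) := by
  obtain ⟨γ, hγ0, hγ1⟩ := exists_path g
  obtain ⟨δ, hδ0, hδ1⟩ := exists_path l
  refine ⟨γ, δ, fun i j => ?_, fun i j => ?_⟩
  · have h1 := regM_act r0 hγ0 hδ0 i j
    rwa [Fam.act_one] at h1
  · have h1 := regM_act r1 hγ1 hδ1 i j
    rwa [h] at h1

end Pool.Agent.MS.PB
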