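import Pool.Agent.MS.H.Defs
import Pool.Agent.helper6.MK.Line

/-!
# PROJECT MS, part A6b (architect helper16): definitions

Paper proof: /team-store/e58350_A6.md, sections 1 and 2.

A *family* is `T : ι → Fin p → Matrix V V R`. Think of a basis `e_i` (`i : ι`) of an algebra `A` and of
`p` commuting representations `ρ_j : A → M_V`; `T i j = ρ_j (e_i)`. If `A` has degree `N` and
`card V = N ^ p` then `A ^ {⊗ p} = M_V`, so `p [A] = 0`. The group `GL_ι × GL_V` acts on the right
(change of the basis of `A` and of the basis of `V`). No structure constants are needed: the algebra is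
`Fam.alg T = adjoin (range T)` inside `Fin p → Matrix V V K`.
-/

set_option autoImplicit false

namespace Pool.Agent.MS.PB

open scoped Matrix
open Polynomial

/-- a family of `p`-tuples of matrices -/
abbrev Fam (p : ℕ) (ι V R : Type) : Type := ι → Fin p → Matrix V V R

namespace Fam

variable {p : ℕ} {ι V : Type}

/-- the image of a family under a ring homomorphism -/
def map {R S : Type} [CommRing R] [CommRing S] (T : Fam p ι V R) (f : R →+* S) : Fam p ι V S :=
  fun i j => (T i j).map f

/-- the right action of `GL_ι × GL_V` -/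
def act {R : Type} [CommRing R] [Fintype ι] [DecidableEq ι] [Fintype V] [DecidableEq V]
    (T : Fam p ι V R) (g : GL ι R) (h : GL V R) : Fam p ι V R :=
  fun i j => ((h⁻¹ : GL V R) : Matrix V V R) * (∑ a, (g : Matrix ι ι R) a i • T a j) *
    (h : Matrix V V R)

/-- different components commute -/
def Comm {R : Type} [CommRing R] [Fintype V] (T : Fam p ι V R) : Prop :=
  ∀ (i i' : ι) (j j' : Fin p), j ≠ j' → T i j * T i' j' = T i' j' * T i j

/-- the algebra of the family -/
def alg {K : Type} [Field K] [Fintype V] [DecidableEq V] (T : Fam p ι V K) :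
    Subalgebra K (Fin p → Matrix V V K) :=
  Algebra.adjoin K (Set.range T)

/-- `T` is a basis of a central simple algebra of degree `N` with `p` commuting representations -/
structure IsForm {K : Type} [Field K] [Fintype V] [DecidableEq V] (N : ℕ) (T : Fam p ι V K) :
    Prop where
  comm : T.Comm
  indep : LinearIndependent K T
  csa : Pool.Agent.BrCyc.IsCSA K T.alg
  rk : Module.finrank K T.alg = N ^ 2

end Fam

/-! ### Rational functions in one variable `t` -/

/-- the field `F(t)` -/
abbrev FT (F : Type) [Field F] : Type := FractionRing F[X]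

/-- the constants `F → F(t)` -/
noncomputable abbrev cT (F : Type) [Field F] : F →+* FT F := (algebraMap F[X] (FT F)).comp C

/-- `x ∈ F(t)` is regular at the point `c` with value `y` -/
def RegAt {F : Type} [Field F] (c : F) (x : FT F) (y : F) : Prop :=
  ∃ r s : F[X], s.eval c ≠ 0 ∧ x * algebraMap F[X] (FT F) s = algebraMap F[X] (FT F) r ∧
    r.eval c = y * s.eval c

/-- `F(t) → L(t)` -/
noncomputable def mapT {F L : Type} [Field F] [Field L] (f : F →+* L) : FT F →+* FT L :=
  IsFractionRing.map (A := F[X]) (B := L[X]) (K := FT F) (L := FT L) (j := mapRingHom f)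
    (Polynomial.map_injective f f.injective)

/-- the valuation with angular component of `F(t)` at the point `c`, uniformiser `X - c` -/
noncomputable def acPt {F : Type} [Field F] (c : F) : AC (FT F) F :=
  acOf (FT F) (X - C c) (prime_X_sub_C c) (evalRingHom c) (fun a => by
    rw [coe_evalRingHom, dvd_iff_isRoot, IsRoot.def])

/-- the specialisation `K_2(F(t)) → K_2(F)` at `t = c` -/
noncomputable def spPt {F : Type} [Field F] (c : F) : K2 (FT F) →+ K2 F := (acPt c).leadHom

/-! ### Inputs from the Brauer side (A6a, helper10), as propositions -/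

/-- residues: if `h(x) = 0` then the tame symbol of `x` is a `p^n`-th power -/
def RLProp (p : ℕ) : Prop :=
  ∀ (K κ : Type) [Field K] [Field κ] (D : AC K κ) (π : Kˣ) (n : ℕ) (ζ : K) (x : K2 K),
    D.v π = 1 → IsPrimitiveRoot ζ (p ^ n) → (p : κ) ≠ 0 → hh (p ^ n) ζ x = 0 →
    ∃ ρ : κˣ, D.tameHom x = Additive.ofMul (ρ ^ p ^ n)

/-- `h_{n+1}(p x) = h_n(x)` -/
def HMulProp (p : ℕ) : Prop :=
  ∀ (L : Type) [Field L] (n : ℕ) (ζ : L) (x : K2 L), IsPrimitiveRoot ζ (p ^ (n + 1)) →
    hh (p ^ (n + 1)) ζ (p • x) = hh (p ^ n) (ζ ^ p) x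

/-- `(K)`: a class of order `p` which dies over `F_∞` is the symbol class of a torsion element -/
def KProp (p : ℕ) : Prop :=
  ∀ (F L : Type) [Field F] [Field L] (f : F →+* L) (ζ : F) (x : Pool.Agent.BrCyc.Br F),
    IsPrimitiveRoot ζ p → IsMu p f → p • x = 0 → brMap f x = 0 →
    ∃ (k : K2 F) (j : ℕ), p ^ j • k = 0 ∧ hh p ζ k = x

end Pool.Agent.MS.PB
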