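import Pool.Agent.MS.E.Reg

/-!
# MSB-Miln: Milnor's exact sequence for `K_2(F(t))`, surjectivity and division

`tame_finite`: for a symbol `{a, b}` the tame symbol at `Q` is trivial unless `Q` divides a numerator or a
denominator of `a` or `b`; finite sums.

`exists_res`: by induction on `d`: for a finitely supported family `(s_Q)` with `s_Q = 1` for
`deg Q ≥ d` there is `x ∈ K_2(F(t))` with `tame_Q x = s_Q` for all `Q`. Step: for the `Q` of degree `d`
choose polynomials `g_Q` of degree `< d` representing `s_Q`; `x' = ∑_Q -{Q, g_Q}` has the right tame symbols at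
all `Q` of degree `d` (`acMI_v_lt`, `acMI_v_other`, `tame_pi_lt`) and trivial ones in degree `> d`; subtract
and use the induction hypothesis for the remaining finitely supported family of smaller degree.

`miln_div`: `s_Q := 1` where the tame symbol is trivial, so the family `s` is finitely supported. Take `d` with
`tame_Q d = s_Q`; `D - M d` has no residues, so it is constant (`line_const`, helper6.MK.Line).
-/

set_option autoImplicit false

namespace Pool.Agent.MS.PB

open Polynomial

variable {F : Type} [Field F]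

/-- the monic irreducible divisors of a nonzero polynomial -/
theorem finite_MI_dvd {f : F[X]} (hf : f ≠ 0) : {Q : MI F | Q.1 ∣ f}.Finite := by
  classical
  refine Set.Finite.of_finite_image (f := fun Q : MI F => Q.1)
    ((UniqueFactorizationMonoid.normalizedFactors f).toFinset.finite_toSet.subset ?_)
    (fun Q _ Q' _ h => Subtype.ext h)
  rintro _ ⟨Q, hQ, rfl⟩
  rw [Finset.mem_coe, Multiset.mem_toFinset, Polynomial.mem_normalizedFactors_iff hf]
  exact ⟨Q.2.2, Q.2.1, hQ⟩

theorem tame_finite (D : K2 (FT F)) : {Q : MI F | (acMI (FT F) Q).tameHom D ≠ 0}.Finite := by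
  induction D using K2.ind with
  | h0 => simp
  | hs a b =>
    obtain ⟨f, g, hf, hg, rfl⟩ := exists_uP (k := F) a
    obtain ⟨f', g', hf', hg', rfl⟩ := exists_uP (k := F) b
    refine (finite_MI_dvd (mul_ne_zero (mul_ne_zero hf hg) (mul_ne_zero hf' hg'))).subset ?_
    intro Q hQ
    by_contra hd
    apply hQ
    have hv : ∀ h : F[X], h ≠ 0 → h ∣ (f * g) * (f' * g') →
        (acMI (FT F) Q).v (uP (FT F) h) = 0 := by
      intro h h0 hdiv
      exact acOf_v_of_not_dvd Q.1 _ _ _ (fun hQh => hd (hQh.trans hdiv)) (uP_val h0)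
    rw [AC.tameHom_sy, AC.tame_of_units, ofMul_one]
    · rw [AC.v_mul, AC.v_inv, hv f hf ⟨g * (f' * g'), by ring⟩,
        hv g hg ⟨f * (f' * g'), by ring⟩, neg_zero, add_zero]
    · rw [AC.v_mul, AC.v_inv, hv f' hf' ⟨f * g * g', by ring⟩,
        hv g' hg' ⟨f * g * f', by ring⟩, neg_zero, add_zero]
  | ha x y hx hy =>
    refine (hx.union hy).subset ?_
    intro Q hQ
    by_contra hd
    rw [Set.mem_union, not_or, Set.mem_ofPred_eq, Set.mem_ofPred_eq, not_not, not_not] at hd
    apply hQ
    rw [map_add, hd.1, hd.2, add_zero]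

theorem exists_res_aux (n : ℕ) : ∀ (s : ∀ Q : MI F, Additive Q.resˣ),
    {Q : MI F | s Q ≠ 0}.Finite → (∀ Q : MI F, n ≤ Q.1.natDegree → s Q = 0) →
    ∃ d : K2 (FT F), ∀ Q : MI F, (acMI (FT F) Q).tameHom d = s Q := by
  classical
  induction n with
  | zero =>
    intro s _ h0
    exact ⟨0, fun Q => by rw [map_zero, h0 Q (Nat.zero_le _)]⟩
  | succ n ih =>
    intro s hs h0
    set T : Finset (MI F) := hs.toFinset.filter (fun Q => Q.1.natDegree = n) with hT
    have hTd : ∀ Q ∈ T, Q.1.natDegree = n := fun Q hQ => (Finset.mem_filter.mp hQ).2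
    set x : K2 (FT F) := ∑ Q ∈ T, -(sy (uP (FT F) Q.1) (uP (FT F) (Q.rep (s Q).toMul))) with hx
    -- the tame symbols of `x` in degree at least `n`
    have hxn : ∀ Q' : MI F, n ≤ Q'.1.natDegree → (acMI (FT F) Q').tameHom x = s Q' := by
      intro Q' hQ'
      have hother : ∀ Q ∈ T, Q ≠ Q' →
          (acMI (FT F) Q').tameHom (-(sy (uP (FT F) Q.1) (uP (FT F) (Q.rep (s Q).toMul)))) = 0 := by
        intro Q hQ hne
        rw [map_neg, AC.tameHom_sy, AC.tame_of_units _ (acMI_v_other Q' Q hne)
          (acMI_v_lt Q' (Q.rep_ne_zero _) ?_), ofMul_one, neg_zero]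
        have h1 := Q.natDegree_rep_lt (s Q).toMul
        have h2 := hTd Q hQ
        omega
      rw [hx, map_sum]
      by_cases hmem : Q' ∈ T
      · rw [Finset.sum_eq_single_of_mem Q' hmem (fun Q hQ hne => hother Q hQ hne), map_neg,
          tame_pi_lt Q' (Q'.rep_ne_zero _) (Q'.natDegree_rep_lt _) (s Q').toMul
            (Q'.mk_rep _).symm, neg_neg]
        rfl
      · rw [Finset.sum_eq_zero (fun Q hQ => hother Q hQ (fun h => hmem (h ▸ hQ)))]
        rcases Nat.eq_or_lt_of_le hQ' with he | hlt
        · by_contra hne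
          exact hmem (Finset.mem_filter.mpr ⟨hs.mem_toFinset.mpr (fun h => hne h.symm), he.symm⟩)
        · exact (h0 Q' hlt).symm
    obtain ⟨d', hd'⟩ := ih (fun Q => s Q - (acMI (FT F) Q).tameHom x)
      ((hs.union (tame_finite x)).subset (by
        intro Q hQ
        by_contra hd
        rw [Set.mem_union, not_or, Set.mem_ofPred_eq, Set.mem_ofPred_eq, not_not, not_not] at hd
        apply hQ
        rw [hd.1, hd.2, sub_zero]))
      (fun Q hQ => by rw [hxn Q hQ, sub_self])
    refine ⟨d' + x, fun Q => ?_⟩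
    rw [map_add, hd' Q, sub_add_cancel]

theorem exists_res (s : ∀ Q : MI F, Additive Q.resˣ) (hs : {Q : MI F | s Q ≠ 0}.Finite) :
    ∃ d : K2 (FT F), ∀ Q : MI F, (acMI (FT F) Q).tameHom d = s Q := by
  classical
  refine exists_res_aux (hs.toFinset.sup (fun Q => Q.1.natDegree) + 1) s hs (fun Q hQ => ?_)
  by_contra hne
  have : Q.1.natDegree ≤ hs.toFinset.sup (fun Q => Q.1.natDegree) :=
    Finset.le_sup (f := fun Q : MI F => Q.1.natDegree) (hs.mem_toFinset.mpr hne)
  omega

theorem miln_div (D : K2 (FT F)) (M : ℕ)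
    (h : ∀ Q : MI F, ∃ s : Q.resˣ, (acMI (FT F) Q).tameHom D = M • Additive.ofMul s) :
    ∃ (d : K2 (FT F)) (c : K2 F), D = M • d + K2.map (cT F) c := by
  classical
  choose s hs using h
  let t : ∀ Q : MI F, Additive Q.resˣ := fun Q =>
    if (acMI (FT F) Q).tameHom D = 0 then 0 else Additive.ofMul (s Q)
  have ht : ∀ Q : MI F, (acMI (FT F) Q).tameHom D = M • t Q := by
    intro Q
    by_cases h0 : (acMI (FT F) Q).tameHom D = 0
    · simp only [t, if_pos h0, smul_zero]
      exact h0
    · simp only [t, if_neg h0]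
      exact hs Q
  have hfin : {Q : MI F | t Q ≠ 0}.Finite := by
    refine (tame_finite D).subset (fun Q hQ => ?_)
    by_contra h0
    rw [Set.mem_ofPred_eq, not_not] at h0
    apply hQ
    simp only [t, if_pos h0]
  obtain ⟨d, hd⟩ := exists_res t hfin
  obtain ⟨c, hc⟩ := line_const (k := F) (K := FT F) (D - M • d) (fun Q => by
    rw [map_sub, map_nsmul, hd Q, ← ht Q, sub_self])
  refine ⟨d, c, ?_⟩
  have hc' : K2.map (cT F) c = D - M • d := hc
  rw [hc', add_sub_cancel]

end Pool.Agent.MS.PB
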