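import Pool.Agent.MS.E.Reg

/-!
# MSB-PathAbs: the field of the generic point

`pathAbs` (pure commutative algebra). `I = ker φ` is prime, `E = Frac (P / I)`, `π : P → P / I → E`,
`i : E → F'` and `Ψ : E → F'(t)` are the extensions of the injective maps `P / I → F'` (induced by `φ`) and
`P / I → F'(t)` (induced by `ψ`, well defined by `h0`; injective: `ψ x = 0` has value `φ x = 0` at `0`, a
value at a point is unique, so `x ∈ I`): `IsFractionRing.lift`. `e = π x / π y`, `φ y ≠ 0`: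
`Ψ e = ψ x / ψ y` is regular with value `φ x / φ y = i e` (`RegAt.mul`, `RegAt.inv`).

-/

set_option autoImplicit false

namespace Pool.Agent.MS.PB

open scoped Matrix
open Polynomial

theorem PathAbs_zero {F : Type} [Field F] {c y : F} (h : RegAt c 0 y) : y = 0 := by
  obtain ⟨r, s, hs, h1, h2⟩ := h
  rw [zero_mul] at h1
  have h3 : r = 0 := by
    refine IsFractionRing.injective F[X] (FT F) ?_
    rw [map_zero, ← h1]
  rw [h3, eval_zero] at h2
  exact (mul_eq_zero.1 h2.symm).resolve_right hs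

theorem pathAbs {P F' : Type} [CommRing P] [Field F'] (φ : P →+* F') (ψ : P →+* FT F')
    (h0 : ∀ x, φ x = 0 → ψ x = 0) (r0 : ∀ x, RegAt 0 (ψ x) (φ x))
    (r1 : ∀ x, RegAt 1 (ψ x) (φ x)) :
    ∃ (E : Type) (_ : Field E) (π : P →+* E) (i : E →+* F') (Ψ : E →+* FT F'),
      (∀ x, i (π x) = φ x) ∧ (∀ x, Ψ (π x) = ψ x) ∧
      ∀ e, RegAt 0 (Ψ e) (i e) ∧ RegAt 1 (Ψ e) (i e) := by
  have hp : (RingHom.ker φ).IsPrime := RingHom.ker_isPrime φ
  let φ' : P ⧸ RingHom.ker φ →+* F' := RingHom.kerLift φ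
  have hφ' : Function.Injective φ' := RingHom.kerLift_injective φ
  let ψ' : P ⧸ RingHom.ker φ →+* FT F' := Ideal.Quotient.lift (RingHom.ker φ) ψ
    (fun a ha => h0 a ((RingHom.mem_ker).1 ha))
  have e1 : ∀ x : P, φ' (Ideal.Quotient.mk _ x) = φ x := fun x => rfl
  have e2 : ∀ x : P, ψ' (Ideal.Quotient.mk _ x) = ψ x := fun x => rfl
  have hψ' : Function.Injective ψ' := by
    rw [injective_iff_map_eq_zero]
    intro a ha
    obtain ⟨x, rfl⟩ := Ideal.Quotient.mk_surjective a
    rw [e2] at ha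
    have h2 := r0 x
    rw [ha] at h2
    rw [Ideal.Quotient.eq_zero_iff_mem, RingHom.mem_ker]
    exact PathAbs_zero h2
  refine ⟨FractionRing (P ⧸ RingHom.ker φ), inferInstance,
    (algebraMap (P ⧸ RingHom.ker φ) (FractionRing (P ⧸ RingHom.ker φ))).comp
      (Ideal.Quotient.mk (RingHom.ker φ)),
    IsFractionRing.lift hφ', IsFractionRing.lift hψ', ?_, ?_, ?_⟩
  · intro x
    rw [RingHom.comp_apply, IsFractionRing.lift_algebraMap, e1]
  · intro x
    rw [RingHom.comp_apply, IsFractionRing.lift_algebraMap, e2]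
  · intro e
    obtain ⟨x, y, hy, rfl⟩ := IsFractionRing.div_surjective (A := P ⧸ RingHom.ker φ) e
    obtain ⟨x, rfl⟩ := Ideal.Quotient.mk_surjective x
    obtain ⟨y, rfl⟩ := Ideal.Quotient.mk_surjective y
    have hy0 : φ y ≠ 0 := by
      intro h
      refine nonZeroDivisors.ne_zero hy ?_
      rw [Ideal.Quotient.eq_zero_iff_mem, RingHom.mem_ker]
      exact h
    rw [map_div₀, map_div₀, IsFractionRing.lift_algebraMap, IsFractionRing.lift_algebraMap,
      IsFractionRing.lift_algebraMap, IsFractionRing.lift_algebraMap, e1, e1, e2, e2,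
      div_eq_mul_inv, div_eq_mul_inv]
    exact ⟨(r0 x).mul ((r0 y).inv hy0), (r1 x).mul ((r1 y).inv hy0)⟩

end Pool.Agent.MS.PB
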