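import Pool.Agent.MS.E.Reg

/-!
# MSB-Retr: specialisation of `K_2` of a purely transcendental extension

`exists_retr`: for a finite type `σ` there is a retraction of `K_2(F) → K_2(F(x_s, s ∈ σ))`. One variable:
`leadHom_inf_map` (helper6.MK.Line, `(acInf K).leadHom (K2.map cK y) = y`) or `sp_const` above; a
composition of maps which have retractions has a retraction, and so has an isomorphism;
`MvPolynomial (Fin (n+1)) F ≃ (MvPolynomial (Fin n) F)[X]` (`MvPolynomial.finSuccEquiv`), and
`Frac (A[X]) ≃ Frac ((Frac A)[X])`; `σ ≃ Fin n` (`MvPolynomial.renameEquiv`).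

-/

set_option autoImplicit false

namespace Pool.Agent.MS.PB

open scoped Matrix
open Polynomial

theorem exists_retr (σ : Type) [Finite σ] (F : Type) [Field F] :
    ∃ s : K2 (FractionRing (MvPolynomial σ F)) →+ K2 F, ∀ x : K2 F,
      s (K2.map ((algebraMap (MvPolynomial σ F) (FractionRing (MvPolynomial σ F))).comp
        MvPolynomial.C) x) = x := by
  sorry

end Pool.Agent.MS.PB
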