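import Pool.Agent.MS.E.FamAlg
import Pool.Agent.MS.E.PathAbs
import Pool.Agent.MS.E.Retr

/-!
# MSB-PathGen: lemma PATH

`pathGen`. `σ = (ι × ι) ⊕ (V × V)`, `S = MvPolynomial σ F`, `F' = FractionRing S`, `a : F → F'`, generic matrices
`g₀ ∈ M_ι(S)`, `l₀ ∈ M_V(S)` (entries the variables), `δ = det g₀ * det l₀ ≠ 0` in `S` (evaluate at
identity matrices), so `g ∈ GL_ι(F')`, `l ∈ GL_V(F')`. `P = MvPolynomial (ι × Fin p × V × V) F`,
`φ : P → F'` sends the variables to the entries of `(o.map a).act g l`, `ψ : P → F'(t)` to the entries of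
`(w.map (mapT a)).act g l` (`g, l` also considered over `F'(t)`), both `F`-algebra maps
(`MvPolynomial.eval₂Hom`).
* values: `RegAt c (ψ x) (φ x)`, `c = 0, 1`: true for constants and for the variables (the entries of
  `w.map (mapT a)` are regular with values the entries of `o.map a` (`RegAt.mapT`), and `g, l, l⁻¹` are
  constant in `t`), then `MvPolynomial.induction_on`.
* `h0`: let `φ x = 0`. `K = AlgebraicClosure (F'(t))`, `f : F'(t) → K`. By `horb` (for the map
  `f ∘ mapT a : F(t) → K`) `w.map (f ∘ mapT a) = (o over K).act γ δ`. So `f (ψ x) = ` the polynomial `x`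
  evaluated at the entries of `(o over K).act (γ g) (δ l)` (`act_act`, `act_map`).
  Let `S_δ = Localization.Away δ`: `g₀, l₀` are invertible over `S_δ`, `S_δ → F'` is injective,
  so the polynomial `x` evaluated at the entries of `(o over S_δ).act g₀ l₀` is `0` in `S_δ`. There is a ring
  homomorphism `S_δ → K` over `F` which sends the generic matrices to `γ g` and `δ l` (determinants
  invertible: `IsLocalization.Away.lift`). Apply it: `f (ψ x) = 0`, so `ψ x = 0`.
`E, i, Ψ, π` from `pathAbs`; `U i j v w = π (X (i, j, v, w))`, `b = π ∘ C`.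
-/

set_option autoImplicit false

namespace Pool.Agent.MS.PB

open scoped Matrix
open Polynomial

variable {p : ℕ} {ι V F : Type} [Field F] [Fintype ι] [DecidableEq ι] [Fintype V] [DecidableEq V]

theorem pathGen (o : Fam p ι V F) (w : Fam p ι V (FT F)) (r0 : ∀ i j, RegM 0 (w i j) (o i j))
    (r1 : ∀ i j, RegM 1 (w i j) (o i j))
    (horb : ∀ (K : Type) [Field K] [IsAlgClosed K] (f : FT F →+* K),
      ∃ (γ : GL ι K) (δ : GL V K), w.map f = (o.map (f.comp (PB.cT F))).act γ δ) :
    ∃ (F' : Type) (_ : Field F') (a : F →+* F') (s : K2 F' →+ K2 F) (E : Type) (_ : Field E)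
      (b : F →+* E) (i : E →+* F') (Ψ : E →+* FT F') (U : Fam p ι V E) (g : GL ι F') (l : GL V F'),
      (∀ x, s (K2.map a x) = x) ∧ i.comp b = a ∧ Ψ.comp b = (PB.cT F').comp a ∧
      U.map i = (o.map a).act g l ∧
      U.map Ψ = (w.map (mapT a)).act (Matrix.GeneralLinearGroup.map (PB.cT F') g)
        (Matrix.GeneralLinearGroup.map (PB.cT F') l) ∧
      ∀ e, RegAt 0 (Ψ e) (i e) ∧ RegAt 1 (Ψ e) (i e) := by
  sorry

end Pool.Agent.MS.PB
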