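import Pool.Agent.MS.E.Reg

/-!
# MSB-RegMap: the specialisation at a point commutes with the extension of constants
-/

set_option autoImplicit false

namespace Pool.Agent.MS.PB

open Polynomial

theorem acPt_mapT {F L : Type} [Field F] [Field L] (f : F →+* L) (c : F) (x : (FT F)ˣ) :
    (acPt (f c)).v (Units.map (mapT f : FT F →* FT L) x) = (acPt c).v x ∧
    (acPt (f c)).ac (Units.map (mapT f : FT F →* FT L) x) =
      Units.map (f : F →* L) ((acPt c).ac x) := by
  obtain ⟨r, s, hr, hs, h⟩ := acOf_exists (K := FT F) (X - C c) (prime_X_sub_C c) (evalRingHom c)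
    (fun a => by rw [coe_evalRingHom, dvd_iff_isRoot, IsRoot.def]) x
  change (x : FT F) * algebraMap F[X] (FT F) s = (algebraMap F[X] (FT F) (X - C c)) ^
    ((acPt c).v x) * algebraMap F[X] (FT F) r at h
  have h' : ((Units.map (mapT f : FT F →* FT L) x : (FT L)ˣ) : FT L) *
      algebraMap L[X] (FT L) (s.map f) = (algebraMap L[X] (FT L) (X - C (f c))) ^
      ((acPt c).v x) * algebraMap L[X] (FT L) (r.map f) := by
    have := congrArg (mapT f) h
    rw [map_mul, map_mul, map_zpow₀, mapT_poly, mapT_poly, mapT_poly, Polynomial.map_sub, map_X,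
      map_C] at this
    exact this
  have hr' : ¬ (X - C (f c)) ∣ r.map f := by
    rw [dvd_iff_isRoot, IsRoot.def, eval_map, eval₂_at_apply, map_eq_zero]
    rwa [dvd_iff_isRoot, IsRoot.def] at hr
  have hs' : ¬ (X - C (f c)) ∣ s.map f := by
    rw [dvd_iff_isRoot, IsRoot.def, eval_map, eval₂_at_apply, map_eq_zero]
    rwa [dvd_iff_isRoot, IsRoot.def] at hs
  refine ⟨acOf_v _ _ _ _ hr' hs' h', ?_⟩
  have e1 := acOf_ac (K := FT F) (X - C c) (prime_X_sub_C c) (evalRingHom c)
    (fun a => by rw [coe_evalRingHom, dvd_iff_isRoot, IsRoot.def]) hr hs h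
  have e2 := acOf_ac (K := FT L) (X - C (f c)) (prime_X_sub_C (f c)) (evalRingHom (f c))
    (fun a => by rw [coe_evalRingHom, dvd_iff_isRoot, IsRoot.def]) hr' hs' h'
  change ((acPt c).ac x : F) * eval c s = eval c r at e1
  change ((acPt (f c)).ac (Units.map (mapT f : FT F →* FT L) x) : L) * eval (f c) (s.map f) =
    eval (f c) (r.map f) at e2
  rw [eval_map, eval₂_at_apply, eval_map, eval₂_at_apply, ← e1, map_mul] at e2
  have hs0 : f (eval c s) ≠ 0 := by
    rw [Ne, map_eq_zero]
    rwa [dvd_iff_isRoot, IsRoot.def] at hs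
  ext
  exact mul_right_cancel₀ hs0 e2

theorem sp_mapT {F L : Type} [Field F] [Field L] (f : F →+* L) (c : F) (x : K2 (FT F)) :
    spPt (f c) (K2.map (mapT f) x) = K2.map f (spPt c x) := by
  have key : (spPt (f c)).comp (K2.map (mapT f)) = (K2.map f).comp (spPt c) := by
    refine K2.hom_ext _ _ fun a b => ?_
    rw [AddMonoidHom.comp_apply, AddMonoidHom.comp_apply, K2.map_sy, spPt, spPt, AC.leadHom_sy,
      AC.leadHom_sy, K2.map_sy, (acPt_mapT f c a).2, (acPt_mapT f c b).2]
  exact DFunLike.congr_fun key x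

end Pool.Agent.MS.PB
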