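import Pool.Agent.MS.E.MuF

/-!
# MSB-ResCmp: residues over `F(t)` and over `F_∞(t)`

`mapT f : F(t) → L(t)`, `L = F_∞`. Let `Q ∈ F[X]` be monic irreducible. Choose a monic irreducible factor `P`
of `Q.map f` in `L[X]`, `j : F[X]/(Q) → L[X]/(P)` (`AdjoinRoot.lift` or `Ideal.quotientMap`).

Unramified: `P^2` does not divide `Q.map f`. `L/F` is algebraic and separable (`IsMu.isSeparable`); `P` and the
quotient have coefficients in a finite separable extension `L_1` of `F` inside `L`, `L_1 = F(θ)` with separable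
minimal polynomial `m`; `L_1[X]/(Q) = (F[X]/(Q))[Y]/(m(Y))` is reduced since `m` is separable over the field
`F[X]/(Q)`; so `Q` is squarefree in `L_1[X]`, and `P ∈ L_1[X]`. (Alternative: `Algebra.TensorProduct` of a separable
algebraic extension with a field is reduced; Galois: `L/F` is Galois, if `P^2 | Q` then `Q` is the
`e`-th power, `e ≥ 2`, of the product of the conjugates of `P`, which lies in `F[X]`.)

Comparison: for `x ∈ F(t)ˣ`, `x = Q^n r / s`, `r, s` prime to `Q`: `f(Q) = P Q'` with `P` not dividing `Q'`, and `P` does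
not divide `f(r)`, `f(s)` (Bezout). So `v_P (mapT x) = v_Q x`, `ac_P (mapT x) = j(ac_Q x) * c ^ (v_Q x)`,
`c` = the class of `Q'` in `L[X]/(P)`. The factors `c^(v w)` cancel in the tame symbol
`(-1)^{v w} ac(a)^w / ac(b)^v`.

Generation: `L[X]/(P)` is generated as a field by the image of `F[X]/(Q)` (it contains `F` and `X`) and
the roots of unity of `L`.
-/

set_option autoImplicit false

namespace Pool.Agent.MS.PB

open Polynomial
open scoped TensorProduct

/-- a separable algebraic extension tensored with a field is reduced -/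
private theorem red_tensor {F L E : Type} [Field F] [Field L] [Field E] [Algebra F L] [Algebra F E]
    [Algebra.IsSeparable F L] : IsReduced (E ⊗[F] L) := by
  apply IsReduced.tensorProduct_of_flat_of_forall_fg
  intro B hB
  obtain ⟨K, rfl⟩ : ∃ K : IntermediateField F L, K.toSubalgebra = B :=
    ⟨B.toIntermediateField' (Subalgebra.isField_of_algebraic B),
      toSubalgebra_toIntermediateField' B _⟩
  have : Algebra.FiniteType F K := Subalgebra.fg_iff_finiteType _ |>.1 hB
  have : Algebra.FormallyUnramified F K := Algebra.FormallyUnramified.of_isSeparable F K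
  have : Algebra.FormallyUnramified E (E ⊗[F] K) := inferInstance
  have : Algebra.EssFiniteType E (E ⊗[F] K) := inferInstance
  exact Algebra.FormallyUnramified.isReduced_of_field E (E ⊗[F] K)

/-- an irreducible polynomial stays squarefree over a separable algebraic extension -/
private theorem red_adjoinRoot {F L : Type} [Field F] [Field L] [Algebra F L]
    [Algebra.IsSeparable F L] (Q : F[X]) (hQ : Irreducible Q) :
    IsReduced (AdjoinRoot (Q.map (algebraMap F L))) := by
  have : Fact (Irreducible Q) := ⟨hQ⟩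
  let iL : AdjoinRoot Q →+* AdjoinRoot Q ⊗[F] L := Algebra.TensorProduct.includeLeftRingHom
  let iR : L →+* AdjoinRoot Q ⊗[F] L :=
    (Algebra.TensorProduct.includeRight : L →ₐ[F] AdjoinRoot Q ⊗[F] L).toRingHom
  have hc : iR.comp (algebraMap F L) = iL.comp (AdjoinRoot.of Q) :=
    (Algebra.TensorProduct.includeLeftRingHom_comp_algebraMap
      (R := F) (A := AdjoinRoot Q) (B := L)).symm
  have h0 : (Q.map (algebraMap F L)).eval₂ iR (iL (AdjoinRoot.root Q)) = 0 := by
    rw [eval₂_map, hc, ← hom_eval₂, AdjoinRoot.eval₂_root, map_zero]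
  let ψ : AdjoinRoot (Q.map (algebraMap F L)) →+* AdjoinRoot Q ⊗[F] L := AdjoinRoot.lift iR _ h0
  let e : AdjoinRoot Q →ₐ[F] AdjoinRoot (Q.map (algebraMap F L)) :=
    { AdjoinRoot.map (algebraMap F L) Q (Q.map (algebraMap F L)) dvd_rfl with
      commutes' := fun c => by
        change AdjoinRoot.map (algebraMap F L) Q _ dvd_rfl (AdjoinRoot.of Q c) = _
        rw [AdjoinRoot.map_of]
        rfl }
  let l : L →ₐ[F] AdjoinRoot (Q.map (algebraMap F L)) :=
    { AdjoinRoot.of (Q.map (algebraMap F L)) with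
      commutes' := fun c => rfl }
  let θ : AdjoinRoot Q ⊗[F] L →ₐ[F] AdjoinRoot (Q.map (algebraMap F L)) :=
    Algebra.TensorProduct.productMap e l
  have hθ : (θ : AdjoinRoot Q ⊗[F] L →+* AdjoinRoot (Q.map (algebraMap F L))).comp ψ =
      RingHom.id _ := by
    apply AdjoinRoot.ringHom_ext
    · ext c
      change θ (ψ (AdjoinRoot.of _ c)) = AdjoinRoot.of _ c
      have h1 : ψ (AdjoinRoot.of _ c) = (1 : AdjoinRoot Q) ⊗ₜ[F] c := AdjoinRoot.lift_of h0
      rw [h1]
      change Algebra.TensorProduct.productMap e l _ = _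
      rw [Algebra.TensorProduct.productMap_apply_tmul, map_one, one_mul]
      rfl
    · change θ (ψ (AdjoinRoot.root _)) = AdjoinRoot.root _
      have h1 : ψ (AdjoinRoot.root _) = (AdjoinRoot.root Q) ⊗ₜ[F] (1 : L) := AdjoinRoot.lift_root h0
      rw [h1]
      change Algebra.TensorProduct.productMap e l _ = _
      rw [Algebra.TensorProduct.productMap_apply_tmul, map_one, mul_one]
      exact AdjoinRoot.map_root _ _ _ dvd_rfl
  have hinj : Function.Injective ψ := by
    intro a b hab
    have h1 := DFunLike.congr_fun hθ a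
    have h2 := DFunLike.congr_fun hθ b
    rw [RingHom.comp_apply, hab] at h1
    exact h1.symm.trans h2
  have := red_tensor (F := F) (L := L) (E := AdjoinRoot Q)
  exact isReduced_of_injective ψ hinj

private theorem not_sq_dvd {F L : Type} [Field F] [Field L] [Algebra F L]
    [Algebra.IsSeparable F L] (Q : F[X]) (hQ : Irreducible Q) (P Q' : L[X]) (hP : Irreducible P)
    (h : Q.map (algebraMap F L) = P * Q') : ¬ P ∣ Q' := by
  rintro ⟨R, rfl⟩
  have := red_adjoinRoot (L := L) Q hQ
  have hne : Q.map (algebraMap F L) ≠ 0 := (Polynomial.map_ne_zero_iff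
    (algebraMap F L).injective).2 hQ.ne_zero
  have h0 : AdjoinRoot.mk (Q.map (algebraMap F L)) (P * R) = 0 := by
    apply pow_eq_zero_iff (two_ne_zero) |>.1
    rw [← map_pow, AdjoinRoot.mk_eq_zero]
    exact ⟨R, by rw [h]; ring⟩
  rw [AdjoinRoot.mk_eq_zero] at h0
  obtain ⟨T, hT⟩ := h0
  rw [h] at hT hne
  have hPR : P * R ≠ 0 := right_ne_zero_of_mul hne
  have h1 : P * T = 1 := by
    apply mul_left_cancel₀ hPR
    rw [mul_one]
    conv_rhs => rw [hT]
    ring
  exact hP.not_isUnit (IsUnit.of_mul_eq_one _ h1)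

/-- the comparison of the valuations and of the angular components -/
private theorem acCmp {F L : Type} [Field F] [Field L] (f : F →+* L) (Q : MI F) (P : MI L)
    (Q' : L[X]) (h : Q.1.map f = P.1 * Q') (hQ' : ¬ P.1 ∣ Q') (j : Q.res →+* P.res)
    (hj : ∀ g : F[X], j (AdjoinRoot.mk Q.1 g) = AdjoinRoot.mk P.1 (g.map f)) (x : (FT F)ˣ) :
    (acMI (FT L) P).v (Units.map (mapT f : FT F →* FT L) x) = (acMI (FT F) Q).v x ∧
    (acMI (FT L) P).ac (Units.map (mapT f : FT F →* FT L) x) =
      (acMI (FT L) P).ac (uP (FT L) Q') ^ ((acMI (FT F) Q).v x) *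
        Units.map (j : Q.res →* P.res) ((acMI (FT F) Q).ac x) := by
  obtain ⟨r, s, hr, hs, hx⟩ := acOf_exists (K := FT F) Q.1 Q.2.2.prime (AdjoinRoot.mk Q.1)
    (fun _ => AdjoinRoot.mk_eq_zero) x
  have hac := acOf_ac (K := FT F) Q.1 Q.2.2.prime (AdjoinRoot.mk Q.1)
    (fun _ => AdjoinRoot.mk_eq_zero) hr hs hx
  change (x : FT F) * _ = _ ^ ((acMI (FT F) Q).v x) * _ at hx
  change (((acMI (FT F) Q).ac x : Q.resˣ) : Q.res) * _ = _ at hac
  set n := (acMI (FT F) Q).v x with hn
  have hmapT : ∀ g : F[X], mapT f (algebraMap F[X] (FT F) g) = algebraMap L[X] (FT L) (g.map f) := by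
    intro g
    have hy : nonZeroDivisors F[X] ≤ Submonoid.comap (mapRingHom f) (nonZeroDivisors L[X]) :=
      nonZeroDivisors_le_comap_nonZeroDivisors_of_injective _
        (Polynomial.map_injective f f.injective)
    exact IsLocalization.map_eq (M := nonZeroDivisors F[X]) (T := nonZeroDivisors L[X])
      (S := FT F) (Q := FT L) (g := mapRingHom f) hy g
  have hcop : ∀ g : F[X], ¬ Q.1 ∣ g → ¬ P.1 ∣ g.map f := by
    intro g hg hd
    obtain ⟨a, b, hab⟩ := (Q.2.2.coprime_iff_not_dvd (n := g)).2 hg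
    have h1 := congrArg (Polynomial.map f) hab
    rw [Polynomial.map_add, Polynomial.map_mul, Polynomial.map_mul, Polynomial.map_one, h] at h1
    apply P.2.2.not_isUnit
    apply isUnit_of_dvd_one
    rw [← h1]
    exact dvd_add (Dvd.intro _ (by ring : P.1 * (Q' * a.map f) = _)) (hd.mul_left _)
  have hr' := hcop r hr
  have hs' := hcop s hs
  have hr0 : r.map f ≠ 0 := fun h => hr' (h ▸ dvd_zero _)
  have hs0 : s.map f ≠ 0 := fun h => hs' (h ▸ dvd_zero _)
  have hQ0 : Q' ≠ 0 := fun h => hQ' (h ▸ dvd_zero _)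
  have key : Units.map (mapT f : FT F →* FT L) x * uP (FT L) (s.map f) =
      uP (FT L) P.1 ^ n * uP (FT L) Q' ^ n * uP (FT L) (r.map f) := by
    ext
    have h1 := congrArg (mapT f) hx
    rw [map_mul, map_mul, map_zpow₀, hmapT, hmapT, hmapT, h, map_mul, mul_zpow] at h1
    rw [Units.val_mul, Units.val_mul, Units.val_mul, Units.val_zpow_eq_zpow_val,
      Units.val_zpow_eq_zpow_val, uP_val hs0, uP_val hr0, uP_val hQ0, uP_val P.2.1.ne_zero]
    exact h1
  have v0 : ∀ g : L[X], ¬ P.1 ∣ g → (acMI (FT L) P).v (uP (FT L) g) = 0 := fun g hg =>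
    acOf_v_of_not_dvd P.1 _ _ _ hg (uP_val (fun h => hg (h ▸ dvd_zero _)))
  have a0 : ∀ g : L[X], ¬ P.1 ∣ g → ((acMI (FT L) P).ac (uP (FT L) g) : P.res) =
      AdjoinRoot.mk P.1 g := fun g hg =>
    acOf_ac_of_not_dvd P.1 _ _ _ hg (uP_val (fun h => hg (h ▸ dvd_zero _)))
  have a1 : (acMI (FT L) P).ac (uP (FT L) P.1) = 1 :=
    acOf_ac_self P.1 _ _ _ (uP_val P.2.1.ne_zero)
  have kv := congrArg (acMI (FT L) P).v key
  rw [AC.v_mul, AC.v_mul, AC.v_mul, AC.v_zpow, AC.v_zpow, v0 _ hs', v0 _ hr', v0 _ hQ',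
    acMI_v_self] at kv
  have ka := congrArg (acMI (FT L) P).ac key
  rw [map_mul, map_mul, map_mul, map_zpow, map_zpow, a1, one_zpow, one_mul] at ka
  refine ⟨by linarith, ?_⟩
  have hu : (acMI (FT L) P).ac (uP (FT L) (r.map f)) =
      Units.map (j : Q.res →* P.res) ((acMI (FT F) Q).ac x) * (acMI (FT L) P).ac (uP (FT L) (s.map f)) := by
    ext
    rw [Units.val_mul, a0 _ hr', a0 _ hs', ← hj, ← hj, ← hac, map_mul]
    rfl
  rw [hu, ← mul_assoc] at ka
  exact mul_right_cancel ka

theorem resCmp {p : ℕ} [Fact p.Prime] {F L : Type} [Field F] [Field L] {f : F →+* L}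
    (hf : IsMu p f) (hp : (p : F) ≠ 0) (Q : MI F) :
    ∃ (P : MI L) (j : Q.res →+* P.res),
      (∀ D : K2 (FT F), (acMI (FT L) P).tameHom (K2.map (mapT f) D) =
        MonoidHom.toAdditive (Units.map (j : Q.res →* P.res)) ((acMI (FT F) Q).tameHom D)) ∧
      ∀ S : Subfield P.res, (∀ c : Q.res, j c ∈ S) →
        (∀ (n : ℕ) (z : P.res), z ^ p ^ n = 1 → z ∈ S) → S = ⊤ := by
  let := f.toAlgebra
  have hsep : Algebra.IsSeparable F L := IsMu.isSeparable hf hp
  have hnu : ¬ IsUnit (Q.1.map f) := by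
    intro hu
    have h1 := natDegree_eq_zero_of_isUnit hu
    rw [natDegree_map] at h1
    exact Q.natDegree_pos.ne' h1
  obtain ⟨P, hPm, hPi, Q', hQ'⟩ := exists_monic_irreducible_factor _ hnu
  have hnd : ¬ P ∣ Q' := not_sq_dvd (F := F) (L := L) Q.1 Q.2.2 P Q' hPi hQ'
  obtain ⟨PP, rfl⟩ : ∃ PP : MI L, PP.1 = P := ⟨⟨P, hPm, hPi⟩, rfl⟩
  let j : Q.res →+* PP.res := AdjoinRoot.map f Q.1 PP.1 ⟨Q', hQ'⟩
  have hj : ∀ g : F[X], j (AdjoinRoot.mk Q.1 g) = AdjoinRoot.mk PP.1 (g.map f) := by
    intro g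
    change AdjoinRoot.lift _ _ _ _ = _
    rw [AdjoinRoot.lift_mk, ← eval₂_map]
    rw [← AdjoinRoot.aeval_eq]
    rfl
  have hcmp := acCmp f Q PP Q' hQ' hnd j hj
  refine ⟨PP, j, ?_, ?_⟩
  · intro D
    have : ((acMI (FT L) PP).tameHom).comp (K2.map (mapT f)) =
        (MonoidHom.toAdditive (Units.map (j : Q.res →* PP.res))).comp (acMI (FT F) Q).tameHom := by
      refine K2.hom_ext _ _ fun a b => ?_
      rw [AddMonoidHom.comp_apply, AddMonoidHom.comp_apply, K2.map_sy, AC.tameHom_sy, AC.tameHom_sy]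
      suffices h : (acMI (FT L) PP).tame (Units.map (mapT f : FT F →* FT L) a)
          (Units.map (mapT f : FT F →* FT L) b) =
          Units.map (j : Q.res →* PP.res) ((acMI (FT F) Q).tame a b) from congrArg Additive.ofMul h
      obtain ⟨ha1, ha2⟩ := hcmp a
      obtain ⟨hb1, hb2⟩ := hcmp b
      rw [AC.tame, AC.tame, ha1, ha2, hb1, hb2, map_mul, map_mul, map_inv, map_zpow, map_zpow,
        map_zpow]
      have hm1 : Units.map (j : Q.res →* PP.res) (-1) = -1 := by
        ext
        change j (-1) = -1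
        rw [map_neg, map_one]
      rw [hm1, mul_zpow, mul_zpow, ← zpow_mul, ← zpow_mul,
        mul_comm ((acMI (FT F) Q).v b) ((acMI (FT F) Q).v a)]
      generalize (acMI (FT L) PP).ac (uP (FT L) Q') ^ ((acMI (FT F) Q).v a * (acMI (FT F) Q).v b) = c
      generalize (-1 : PP.resˣ) ^ ((acMI (FT F) Q).v a * (acMI (FT F) Q).v b) = e
      generalize Units.map (j : Q.res →* PP.res) ((acMI (FT F) Q).ac a) ^ (acMI (FT F) Q).v b = u
      generalize Units.map (j : Q.res →* PP.res) ((acMI (FT F) Q).ac b) ^ (acMI (FT F) Q).v a = v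
      rw [mul_inv]
      calc e * (c * u) * (c⁻¹ * v⁻¹) = e * u * v⁻¹ * (c * c⁻¹) := by
            simp only [mul_comm, mul_left_comm, mul_assoc]
        _ = e * u * v⁻¹ := by rw [mul_inv_cancel, mul_one]
    exact DFunLike.congr_fun this D
  · intro S hS1 hS2
    have h1 : S.comap (AdjoinRoot.of PP.1) = ⊤ := by
      apply hf.gen
      · intro c
        rw [Subfield.mem_comap]
        have := hS1 (AdjoinRoot.of Q.1 c)
        have e : j (AdjoinRoot.of Q.1 c) = AdjoinRoot.of PP.1 (f c) := AdjoinRoot.map_of _ _ _ _ _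
        rwa [e] at this
      · intro n z hz
        rw [Subfield.mem_comap]
        apply hS2 n
        rw [← map_pow, hz, map_one]
    have h2 : AdjoinRoot.root PP.1 ∈ S := by
      have := hS1 (AdjoinRoot.root Q.1)
      have e : j (AdjoinRoot.root Q.1) = AdjoinRoot.root PP.1 := AdjoinRoot.map_root _ _ _ _
      rwa [e] at this
    rw [eq_top_iff]
    intro x _
    induction x using AdjoinRoot.induction_on with
    | ih g =>
      induction g using Polynomial.induction_on' with
      | add g h hg hh =>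
        rw [map_add]
        exact add_mem (hg trivial) (hh trivial)
      | monomial n a =>
        rw [← C_mul_X_pow_eq_monomial, map_mul, map_pow, AdjoinRoot.mk_X]
        refine mul_mem ?_ (pow_mem h2 n)
        have : a ∈ S.comap (AdjoinRoot.of PP.1) := h1 ▸ trivial
        exact this

end Pool.Agent.MS.PB
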