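import Mathlib

/-!
# MSB-RootR: the lemma (R) on roots of unity

`p` odd prime, `κ ∋ ζ` primitive `p`-th root of unity, `κ' = κ(μ_{p^∞} ∩ κ')`. If `r ∈ κˣ` is a `p^n`-th
power in `κ'` then `r^(p^e) = s^(p^(n+e))` for some `e` and `s ∈ κˣ`.

Step (`root_step`). Let `E / κ` be a field extension generated by one element `ζ'` with `ζ'^p ∈ κ`,
`ζ'^(p^m) = 1`, and `ρ ∈ E` with `ρ^(p^n) = r ∈ κ`. If `ζ' ∈ κ` nothing to do. Otherwise `X^p - ζ'^p` is
irreducible over `κ` (`X_pow_sub_C_irreducible_of_prime` or Kummer theory in Mathlib; roots of unity of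
order `p` are in `κ`), `E/κ` is cyclic of degree `p`, with generator `γ`, `γ ζ' = ζ ζ'` (after replacing `ζ` by a
power). `η = γ ρ / ρ` satisfies `η^(p^n) = 1` and `N η = η γ(η) ⋯ γ^(p-1)(η) = 1`.
Claim `η^p = 1`: let `p^k` be the order of `η`, suppose `k ≥ 2`. `γ η = η^c`; `γ` fixes `η^(p^(k-1))` (it
lies in `μ_p ⊂ κ`), so `c ≡ 1 mod p`; `γ^p = 1` gives `c^p ≡ 1 mod p^k`, hence `c ≡ 1 mod p^(k-1)` (lifting the
exponent, `p` odd: `Int.emultiplicity_pow_sub_pow`), `c = 1 + p^(k-1) d`, and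
`1 + c + ⋯ + c^(p-1) ≡ p + p^(k-1) d p (p-1)/2 ≡ p mod p^k`; so `N η = η^p ≠ 1`, contradiction.
So `η = ζ^j`, `ρ / ζ'^j` is fixed by `γ`, so it is an element `s` of `κ`, and `r = ρ^(p^n) = s^(p^n) ζ'^(j p^n)`,
`r^(p^m) = s^(p^(n+m))` as `ζ'^(p^m) = 1`.

Tower. The union of the fields `κ(z)`, `z^(p^m) = 1`, is a subfield (a chain: `κ(z, z') = κ(z'')` with `z''` a
generator of the finite cyclic group generated by `z, z'`), it contains `κ` and all roots of unity, so it is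
`κ'`. So `ρ ∈ κ(z)`, `z^(p^m) = 1`. Induction on `m` for the statement: `κ ⊂ E ⊂ κ'`, `ρ ∈ E(z)`,
`ρ^(p^n) = r`, `r ∈ κ`: with `E_1 = κ(z^p)`, step for `E_1(z)/E_1` gives `r^(p^e) = s^(p^(n+e))`, `s ∈ κ(z^p)`;
apply the induction hypothesis (`m - 1`) to `r^(p^e)`, `n + e`, `s`.
-/

set_option autoImplicit false

namespace Pool.Agent.MS.PB

/-- the arithmetic behind `root_lemma` -/
private theorem root_arith {p : ℕ} (hp : p.Prime) (hp2 : p ≠ 2) (M : ℕ) (hM : 1 ≤ M) (b c : ℕ)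
    (hc1 : (p : ℤ) ∣ (c : ℤ) - 1)
    (hfix : ∀ k : ℕ, ((p : ℤ) ^ M) ∣ (c : ℤ) ^ k - 1 →
      ((p : ℤ) ^ M) ∣ (b : ℤ) * ∑ i ∈ Finset.range k, (c : ℤ) ^ i) :
    ∃ d : ℤ, ((p : ℤ) ^ M) ∣ d * ((c : ℤ) - 1) - b := by
  have hpp : _root_.Prime (p : ℤ) := Nat.prime_iff_prime_int.mp hp
  have hgd : Int.gcd ((c : ℤ) - 1) ((p ^ M : ℕ) : ℤ) ∣ p ^ M := by
    have := Int.gcd_dvd_right (a := (c : ℤ) - 1) (b := ((p ^ M : ℕ) : ℤ))
    exact_mod_cast this
  obtain ⟨w, hwM, hw⟩ := (Nat.dvd_prime_pow hp).1 hgd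
  have hwc : ((p : ℤ) ^ w) ∣ (c : ℤ) - 1 := by
    have := Int.gcd_dvd_left (a := (c : ℤ) - 1) (b := ((p ^ M : ℕ) : ℤ))
    rw [hw] at this
    exact_mod_cast this
  have hb : p ^ w ∣ b := by
    rcases Nat.lt_or_ge w M with hlt | hge
    · -- `w < M`
      have hnot : ¬ ((p : ℤ) ^ (w + 1)) ∣ (c : ℤ) - 1 := by
        intro hdv
        have h1 : ((p ^ (w + 1) : ℕ) : ℤ) ∣ (c : ℤ) - 1 := by exact_mod_cast hdv
        have h2 : ((p ^ (w + 1) : ℕ) : ℤ) ∣ ((p ^ M : ℕ) : ℤ) :=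
          Int.natCast_dvd_natCast.2 (pow_dvd_pow p hlt)
        have h3 := Int.dvd_coe_gcd h1 h2
        rw [hw] at h3
        have h4 : p ^ (w + 1) ∣ p ^ w := by exact_mod_cast h3
        have h5 := (Nat.pow_dvd_pow_iff_le_right hp.one_lt).1 h4
        omega
      have hem : emultiplicity (p : ℤ) ((c : ℤ) - 1) = w :=
        emultiplicity_eq_coe.2 ⟨hwc, hnot⟩
      have hnc : ¬ (p : ℤ) ∣ (c : ℤ) := by
        intro hd
        have : (p : ℤ) ∣ 1 := by
          have := dvd_sub hd hc1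
          simpa using this
        exact hpp.not_unit (isUnit_of_dvd_one this)
      have hodd : Odd p := hp.odd_of_ne_two hp2
      have hLTE := Int.emultiplicity_pow_sub_pow (p := p) hp hodd (x := (c : ℤ)) (y := 1)
        hc1 hnc (p ^ (M - w))
      rw [one_pow, hem, hp.emultiplicity_pow_self] at hLTE
      have hem2 : emultiplicity (p : ℤ) ((c : ℤ) ^ p ^ (M - w) - 1) = (M : ℕ) := by
        rw [hLTE]
        have : w + (M - w) = M := by omega
        exact_mod_cast this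
      obtain ⟨hdv, hndv⟩ := emultiplicity_eq_coe.1 hem2
      obtain ⟨u, hu⟩ := hdv
      have hup : ¬ (p : ℤ) ∣ u := by
        rintro ⟨u', rfl⟩
        apply hndv
        rw [hu]
        exact ⟨u', by ring⟩
      have h1 := hfix (p ^ (M - w)) ⟨u, hu⟩
      have h2 : (p : ℤ) ^ (M + w) ∣ (p : ℤ) ^ M * ((b : ℤ) * u) := by
        have h3 := mul_dvd_mul h1 hwc
        rw [← pow_add, mul_assoc, geom_sum_mul, hu] at h3
        have h4 : (b : ℤ) * ((p : ℤ) ^ M * u) = (p : ℤ) ^ M * ((b : ℤ) * u) := by ring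
        rwa [h4] at h3
      rw [pow_add] at h2
      have h5 : (p : ℤ) ^ w ∣ (b : ℤ) * u :=
        (mul_dvd_mul_iff_left (pow_ne_zero M hpp.ne_zero)).1 h2
      have hcop : IsCoprime ((p : ℤ) ^ w) u :=
        IsCoprime.pow_left ((Prime.coprime_iff_not_dvd hpp).2 hup)
      have h6 := hcop.dvd_of_dvd_mul_right h5
      exact_mod_cast h6
    · -- `w = M`
      have hwM' : w = M := le_antisymm hwM hge
      subst hwM'
      have h1 := hfix 1 (by simpa using hwc)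
      simp only [Finset.range_one, Finset.sum_singleton, pow_zero, mul_one] at h1
      exact_mod_cast h1
  have hg : Int.gcd ((c : ℤ) - 1) ((p ^ M : ℕ) : ℤ) ∣ b := by rw [hw]; exact hb
  obtain ⟨x, y, hxy⟩ := Int.gcd_dvd_iff.1 hg
  refine ⟨x, ⟨-y, ?_⟩⟩
  rw [hxy]
  push_cast
  ring

/-- the lemma for one cyclotomic extension -/
private theorem root_galois {p : ℕ} (hp : p.Prime) (hp2 : p ≠ 2) {κ L : Type} [Field κ] [Field L]
    [Algebra κ L] {ζ : κ} (hζ : IsPrimitiveRoot ζ p) (M : ℕ) [NeZero (p ^ M)] {z : L}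
    (hz : IsPrimitiveRoot z (p ^ M)) [IsCyclotomicExtension {p ^ M} κ L] (hM : 1 ≤ M) (n : ℕ)
    (hroots : ∀ x : L, x ^ p ^ n = 1 → x ^ p ^ M = 1)
    (r : κˣ) (ρ : L) (h : ρ ^ p ^ n = algebraMap κ L r) :
    ∃ s : κˣ, r ^ p ^ M = s ^ p ^ (n + M) := by
  have : IsGalois κ L := IsCyclotomicExtension.isGalois {p ^ M} κ L
  have : FiniteDimensional κ L := IsCyclotomicExtension.finiteDimensional {p ^ M} κ L
  have : IsCyclic ((ZMod (p ^ M))ˣ) := ZMod.isCyclic_units_of_prime_pow p hp hp2 M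
  have : IsCyclic (L ≃ₐ[κ] L) :=
    isCyclic_of_injective (hz.autToPow κ) (hz.autToPow_injective κ)
  obtain ⟨γ, hγ⟩ := IsCyclic.exists_generator (α := L ≃ₐ[κ] L)
  have hpn : p ^ n ≠ 0 := pow_ne_zero _ hp.ne_zero
  have hρ : ρ ≠ 0 := by
    rintro rfl
    rw [zero_pow hpn] at h
    exact r.ne_zero ((map_eq_zero (algebraMap κ L)).1 h.symm)
  have hz0 : z ≠ 0 := hz.ne_zero (NeZero.ne _)
  -- `η`
  have hη : (γ ρ / ρ) ^ p ^ M = 1 := by
    apply hroots
    rw [div_pow, ← map_pow, h, AlgEquiv.commutes, div_self]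
    rw [← h]; exact pow_ne_zero _ hρ
  obtain ⟨b, -, hb⟩ := hz.eq_pow_of_pow_eq_one hη
  have hγz : (γ z) ^ p ^ M = 1 := by rw [← map_pow, hz.pow_eq_one, map_one]
  obtain ⟨c, -, hc⟩ := hz.eq_pow_of_pow_eq_one hγz
  have hγρ : γ ρ = z ^ b * ρ := by rw [hb, div_mul_cancel₀ _ hρ]
  -- `c = 1` modulo `p`
  have hc1 : (p : ℤ) ∣ (c : ℤ) - 1 := by
    have hζL : IsPrimitiveRoot (algebraMap κ L ζ) p :=
      hζ.map_of_injective (algebraMap κ L).injective
    have h1 : (algebraMap κ L ζ) ^ p ^ M = 1 :=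
      (hζL.pow_eq_one_iff_dvd _).2 (dvd_pow_self p (by omega))
    obtain ⟨e, -, he⟩ := hz.eq_pow_of_pow_eq_one h1
    have h2 : z ^ (c * e) = z ^ e := by
      rw [pow_mul, hc, ← map_pow, he, AlgEquiv.commutes]
    by_contra hnd
    have h3 : ((p ^ M : ℕ) : ℤ) ∣ ((c : ℤ) - 1) * e := by
      rw [← hz.zpow_eq_one_iff_dvd, sub_mul, one_mul, zpow_sub₀ hz0]
      have : (c : ℤ) * e = ((c * e : ℕ) : ℤ) := by push_cast; ring
      rw [this, zpow_natCast, zpow_natCast, h2, div_self (pow_ne_zero _ hz0)]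
    have hpp : _root_.Prime (p : ℤ) := Nat.prime_iff_prime_int.mp hp
    have hcop : IsCoprime ((p ^ M : ℕ) : ℤ) ((c : ℤ) - 1) := by
      push_cast
      exact IsCoprime.pow_left ((Prime.coprime_iff_not_dvd hpp).2 hnd)
    have h4 : ((p ^ M : ℕ) : ℤ) ∣ (e : ℤ) := hcop.dvd_of_dvd_mul_left h3
    have h5 : p ^ M ∣ e := Int.natCast_dvd_natCast.1 h4
    have h6 : algebraMap κ L ζ = 1 := by rw [← he]; exact (hz.pow_eq_one_iff_dvd e).2 h5
    exact hζL.ne_one hp.one_lt h6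
  -- powers of `γ`
  have hγkz : ∀ k : ℕ, (γ ^ k) z = z ^ c ^ k := by
    intro k
    induction k with
    | zero => simp
    | succ k ih =>
      rw [pow_succ, AlgEquiv.mul_apply, ← hc, map_pow, ih, ← pow_mul, ← pow_succ]
  have hγkρ : ∀ k : ℕ, (γ ^ k) ρ = z ^ (b * ∑ i ∈ Finset.range k, c ^ i) * ρ := by
    intro k
    induction k with
    | zero => simp
    | succ k ih =>
      rw [pow_succ, AlgEquiv.mul_apply, hγρ, map_mul, ih, map_pow, hγkz, Finset.sum_range_succ,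
        mul_add, pow_add, ← pow_mul, mul_comm (c ^ k) b]
      ring
  have hfix : ∀ k : ℕ, ((p : ℤ) ^ M) ∣ (c : ℤ) ^ k - 1 →
      ((p : ℤ) ^ M) ∣ (b : ℤ) * ∑ i ∈ Finset.range k, (c : ℤ) ^ i := by
    intro k hk
    have h1 : z ^ c ^ k = z := by
      have : z ^ (((c ^ k : ℕ) : ℤ) - 1) = 1 := by
        rw [hz.zpow_eq_one_iff_dvd]
        push_cast
        exact hk
      rw [zpow_sub₀ hz0, zpow_natCast, zpow_one, div_eq_one_iff_eq hz0] at this
      exact this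
    have h2 : γ ^ k = 1 := by
      apply AlgEquiv.coe_toAlgHom_injective
      apply (hz.powerBasis κ).algHom_ext
      rw [IsPrimitiveRoot.powerBasis_gen]
      change (γ ^ k) z = z
      rw [hγkz, h1]
    have h3 := hγkρ k
    rw [h2, AlgEquiv.one_apply] at h3
    have h4 : z ^ (b * ∑ i ∈ Finset.range k, c ^ i) = 1 := by
      have h5 : z ^ (b * ∑ i ∈ Finset.range k, c ^ i) * ρ = 1 * ρ := by rw [← h3, one_mul]
      exact mul_right_cancel₀ hρ h5
    have h6 := (hz.pow_eq_one_iff_dvd _).1 h4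
    have h7 : ((p ^ M : ℕ) : ℤ) ∣ ((b * ∑ i ∈ Finset.range k, c ^ i : ℕ) : ℤ) :=
      Int.natCast_dvd_natCast.2 h6
    push_cast at h7
    exact h7
  obtain ⟨d, hd⟩ := root_arith hp hp2 M hM b c hc1 hfix
  -- the fixed element
  have hzd : z ^ d ≠ 0 := zpow_ne_zero _ hz0
  have hfixed : γ (ρ / z ^ d) = ρ / z ^ d := by
    rw [map_div₀, map_zpow₀, hγρ, ← hc, div_eq_div_iff (zpow_ne_zero _ (pow_ne_zero _ hz0)) hzd]
    have h1 : z ^ (d * ((c : ℤ) - 1) - b) = 1 := by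
      rw [hz.zpow_eq_one_iff_dvd]; push_cast; exact hd
    have h2 : (z ^ c) ^ d = z ^ b * z ^ d := by
      have h3 : (z ^ c) ^ d = z ^ ((c : ℤ) * d) := by rw [zpow_mul, zpow_natCast]
      rw [h3]
      have h4 : (c : ℤ) * d = (d * ((c : ℤ) - 1) - b) + ((b : ℤ) + d) := by ring
      rw [h4, zpow_add₀ hz0, h1, one_mul, zpow_add₀ hz0, zpow_natCast]
    rw [h2]
    ring
  have hall : ∀ g : L ≃ₐ[κ] L, g (ρ / z ^ d) = ρ / z ^ d := by
    intro g
    obtain ⟨k, rfl⟩ := Subgroup.mem_zpowers_iff.1 (hγ g)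
    have hmem : γ ∈ MulAction.stabilizer (L ≃ₐ[κ] L) (ρ / z ^ d) := hfixed
    exact (Subgroup.zpow_mem _ hmem k)
  obtain ⟨s, hs⟩ := (IsGalois.mem_range_algebraMap_iff_fixed (ρ / z ^ d)).2 hall
  have hs0 : s ≠ 0 := by
    rintro rfl
    rw [map_zero] at hs
    exact (div_ne_zero hρ hzd) hs.symm
  refine ⟨Units.mk0 s hs0, ?_⟩
  apply Units.ext
  rw [Units.val_pow_eq_pow_val, Units.val_pow_eq_pow_val, Units.val_mk0]
  apply (algebraMap κ L).injective
  have h1 : ρ = algebraMap κ L s * z ^ d := by rw [hs, div_mul_cancel₀ _ hzd]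
  have h2 : (z ^ d) ^ p ^ M = 1 := by
    rw [← zpow_natCast, ← zpow_mul, mul_comm d, zpow_mul, zpow_natCast, hz.pow_eq_one, one_zpow]
  rw [map_pow, map_pow, ← h, ← pow_mul, ← pow_add, h1, mul_pow, pow_add, pow_mul (z ^ d),
    ← pow_mul, mul_comm (p ^ n) (p ^ M), pow_mul (z ^ d), h2, one_pow, mul_one]

/-- the lemma (R) -/
theorem root_lemma {p : ℕ} [Fact p.Prime] (hp2 : p ≠ 2) {κ κ' : Type} [Field κ] [Field κ']
    (j : κ →+* κ') {ζ : κ} (hζ : IsPrimitiveRoot ζ p)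
    (hgen : ∀ S : Subfield κ', (∀ c : κ, j c ∈ S) → (∀ (n : ℕ) (z : κ'), z ^ p ^ n = 1 → z ∈ S) →
      S = ⊤) (r : κˣ) (n : ℕ) (ρ : κ') (h : ρ ^ p ^ n = j r) :
    ∃ (e : ℕ) (s : κˣ), r ^ p ^ e = s ^ p ^ (n + e) := by
  have hp : p.Prime := Fact.out
  let _ : Algebra κ κ' := j.toAlgebra
  have hj : ∀ c : κ, algebraMap κ κ' c = j c := fun c => rfl
  have htop : (IntermediateField.adjoin κ {z : κ' | ∃ m : ℕ, z ^ p ^ m = 1}).toSubfield = ⊤ := by
    apply hgen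
    · intro c
      exact IntermediateField.algebraMap_mem _ c
    · intro m z hz
      exact IntermediateField.subset_adjoin κ _ ⟨m, hz⟩
  have hρ : ρ ∈ IntermediateField.adjoin κ {z : κ' | ∃ m : ℕ, z ^ p ^ m = 1} := by
    have : ρ ∈ (IntermediateField.adjoin κ {z : κ' | ∃ m : ℕ, z ^ p ^ m = 1}).toSubfield := by
      rw [htop]; trivial
    exact this
  obtain ⟨T, hT, hρT⟩ := IntermediateField.exists_finset_of_mem_adjoin hρ
  have hTm : ∃ m : ℕ, ∀ t ∈ T, t ^ p ^ m = 1 := by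
    classical
    have hT' : ∀ t ∈ T, ∃ m : ℕ, t ^ p ^ m = 1 := fun t ht => hT ht
    clear hT hρT
    induction T using Finset.induction_on with
    | empty => exact ⟨0, by simp⟩
    | insert a T ha ih =>
      obtain ⟨m, hm⟩ := ih (fun t ht => hT' t (Finset.mem_insert_of_mem ht))
      obtain ⟨m', hm'⟩ := hT' a (Finset.mem_insert_self a T)
      refine ⟨m + m', fun t ht => ?_⟩
      rcases Finset.mem_insert.1 ht with rfl | ht
      · rw [add_comm, pow_add, pow_mul, hm', one_pow]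
      · rw [pow_add, pow_mul, hm t ht, one_pow]
  obtain ⟨m, hm⟩ := hTm
  -- all roots of unity of order `p ^ N`
  set N : ℕ := m + n + 1 with hN
  have : NeZero (p ^ N) := ⟨pow_ne_zero _ hp.ne_zero⟩
  obtain ⟨g, hg⟩ := (rootsOfUnity.isCyclic κ' (p ^ N)).exists_generator
  have hgN : g ^ p ^ N = 1 := by
    apply Subtype.ext
    have := g.2
    rw [mem_rootsOfUnity] at this
    rw [SubmonoidClass.coe_pow, this]
    rfl
  obtain ⟨M, hMN, hM⟩ := (Nat.dvd_prime_pow hp).1 (orderOf_dvd_of_pow_eq_one hgN)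
  have hz : IsPrimitiveRoot (((g : κ'ˣ) : κ')) (p ^ M) := by
    rw [IsPrimitiveRoot.coe_units_iff, IsPrimitiveRoot.coe_submonoidClass_iff, ← hM]
    exact IsPrimitiveRoot.orderOf g
  set z : κ' := ((g : κ'ˣ) : κ') with hzdef
  have hpow : ∀ x : κ', x ^ p ^ N = 1 → ∃ k : ℤ, z ^ k = x := by
    intro x hx
    have hxu : x ≠ 0 := by
      rintro rfl
      rw [zero_pow (NeZero.ne _)] at hx
      exact zero_ne_one hx
    have hxr : Units.mk0 x hxu ∈ rootsOfUnity (p ^ N) κ' := by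
      rw [mem_rootsOfUnity]
      apply Units.ext
      simpa using hx
    obtain ⟨k, hk⟩ := Subgroup.mem_zpowers_iff.1 (hg ⟨Units.mk0 x hxu, hxr⟩)
    refine ⟨k, ?_⟩
    have h1 : (((g ^ k : rootsOfUnity (p ^ N) κ') : κ'ˣ) : κ') = x := by rw [hk]; rfl
    rw [← h1, SubgroupClass.coe_zpow, Units.val_zpow_eq_zpow_val]
  have hζ' : IsPrimitiveRoot (algebraMap κ κ' ζ) p :=
    hζ.map_of_injective (algebraMap κ κ').injective
  have hζz : ∃ k : ℤ, z ^ k = algebraMap κ κ' ζ :=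
    hpow _ ((hζ'.pow_eq_one_iff_dvd _).2 (dvd_pow_self p (by omega)))
  have hM1 : 1 ≤ M := by
    by_contra hlt
    have hM0 : M = 0 := by omega
    obtain ⟨k, hk⟩ := hζz
    have h1 : z = 1 := by
      have := hz.pow_eq_one
      rw [hM0, pow_zero, pow_one] at this
      exact this
    rw [h1, one_zpow] at hk
    exact hζ'.ne_one hp.one_lt hk.symm
  have : NeZero (p ^ M) := ⟨pow_ne_zero _ hp.ne_zero⟩
  have hint : IsIntegral κ z := by
    refine ⟨Polynomial.X ^ p ^ M - Polynomial.C 1,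
      Polynomial.monic_X_pow_sub_C (1 : κ) (NeZero.ne (p ^ M)), ?_⟩
    simp [hz.pow_eq_one]
  have : IsCyclotomicExtension {p ^ M} κ (IntermediateField.adjoin κ {z}) := by
    change IsCyclotomicExtension {p ^ M} κ (IntermediateField.adjoin κ {z}).toSubalgebra
    rw [IntermediateField.adjoin_simple_toSubalgebra_of_isAlgebraic hint.isAlgebraic]
    exact hz.adjoin_isCyclotomicExtension κ
  have hzmem : z ∈ IntermediateField.adjoin κ {z} :=
    IntermediateField.mem_adjoin_simple_self κ z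
  have hTz : IntermediateField.adjoin κ (T : Set κ') ≤ IntermediateField.adjoin κ {z} := by
    rw [IntermediateField.adjoin_le_iff]
    intro t ht
    have h1 : t ^ p ^ N = 1 := by
      rw [hN, add_assoc, pow_add, pow_mul, hm t ht, one_pow]
    obtain ⟨k, rfl⟩ := hpow t h1
    exact zpow_mem hzmem k
  have hρz : ρ ∈ IntermediateField.adjoin κ {z} := hTz hρT
  have hz' : IsPrimitiveRoot (⟨z, hzmem⟩ : IntermediateField.adjoin κ {z}) (p ^ M) :=
    IsPrimitiveRoot.coe_submonoidClass_iff.1 hz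
  have hroots : ∀ x : IntermediateField.adjoin κ {z}, x ^ p ^ n = 1 → x ^ p ^ M = 1 := by
    intro x hx
    have h1 : (x : κ') ^ p ^ N = 1 := by
      have h2 : (x : κ') ^ p ^ n = 1 := by
        have := congrArg (Subtype.val) hx
        simpa using this
      have h3 : p ^ N = p ^ n * p ^ (m + 1) := by rw [← pow_add, hN]; congr 1; ring
      rw [h3, pow_mul, h2, one_pow]
    obtain ⟨k, hk⟩ := hpow _ h1
    apply Subtype.ext
    change (x : κ') ^ p ^ M = 1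
    rw [← hk, ← zpow_natCast, ← zpow_mul, mul_comm k, zpow_mul, zpow_natCast, hz.pow_eq_one,
      one_zpow]
  obtain ⟨s, hs⟩ := root_galois hp hp2 hζ M hz' hM1 n hroots r ⟨ρ, hρz⟩ (by
    apply Subtype.ext
    change ρ ^ p ^ n = algebraMap κ κ' r
    rw [h, hj])
  exact ⟨M, s, hs⟩

end Pool.Agent.MS.PB
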