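import Pool.Agent.MS.E.Defs

/-!
# MSB-TP: iterated tensor products, `p [A] = 0`

`exists_TP`: induction on `r`; `r = 0`: `B = K`; `r + 1`: `B' = B ⊗ A`, `ι' j = includeLeft ∘ ι j`
(`j < r`), `ι' last = includeRight`. Universal property: given commuting `α : Fin (r+1) → (A →ₐ C)`, the
first `r` of them have values in the centralizer `C'` of the range of the last one; apply the induction
hypothesis to `C'` to get `φ : B →ₐ C' ⊂ C`, then `Algebra.TensorProduct.lift φ (α last)`. The class:
`Br.mk_tensor`; the dimension: `Module.finrank_tensorProduct`.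

`IsForm.nsmul_class`: the projections `ρ_j : T.alg →ₐ Matrix V V K` (`j : Fin p`) commute for `j ≠ j'` on the
generators `T i` (that is `T.Comm`), hence on `T.alg` (centralizer argument, twice). So `exists_TP` with `r = p` gives
`φ : B →ₐ Matrix V V K`; `B` is simple, so `φ` is injective, and `finrank B = (N²)^p = (card V)²`, so `φ` is an
isomorphism, `Br.mk B = 0` (`sim_matrix_self`; `V` is nonempty since `card V = N ^ p`, `N > 0` as `T.alg`
is not zero).

`split_iso`: `M_m(A) ≃ M_n(K)`; `e ∈ M_n(K)` the image of the idempotent `E_11`; `W = e K^n` is an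
`A`-module, `dim W = n / m` and `dim A = (n/m)²`; `A → End_K(W)` is injective (`A` simple), hence bijective.
(Or Wedderburn: `A ≃ M_r(D)` and minimal left ideals.)

-/

set_option autoImplicit false

namespace Pool.Agent.MS.PB

open scoped Matrix TensorProduct
open Pool.Agent.BrCyc

/-- iterated tensor products with their universal property -/
theorem exists_TP {K A : Type} [Field K] [Ring A] [Algebra K A] (hA : IsCSA K A) (r : ℕ) :
    ∃ (B : Type) (_ : Ring B) (_ : Algebra K B) (hB : IsCSA K B) (i : Fin r → (A →ₐ[K] B)),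
      Br.mk B hB = r • Br.mk A hA ∧ Module.finrank K B = (Module.finrank K A) ^ r ∧
      ∀ (C : Type) [Ring C] [Algebra K C] (α : Fin r → (A →ₐ[K] C)),
        (∀ j j', j ≠ j' → ∀ x y : A, α j x * α j' y = α j' y * α j x) →
        ∃ φ : B →ₐ[K] C, ∀ j x, φ (i j x) = α j x := by
  sorry

/-- a split algebra of dimension `N²` is `M_N(K)` -/
theorem split_iso {K A : Type} [Field K] [Ring A] [Algebra K A] (hA : IsCSA K A)
    (h : Br.mk A hA = 0) {N : ℕ} (hN : Module.finrank K A = N ^ 2) :
    Nonempty (A ≃ₐ[K] Matrix (Fin N) (Fin N) K) := by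
  sorry

variable {p : ℕ} {ι V K : Type} [Field K] [Fintype V] [DecidableEq V]

theorem Fam.IsForm.nsmul_class {N : ℕ} {T : Fam p ι V K} (h : T.IsForm N)
    (hV : Fintype.card V = N ^ p) : p • Br.mk T.alg h.csa = 0 := by
  sorry

end Pool.Agent.MS.PB
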