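import Pool.Agent.MS.E.FamAlg
import Pool.Agent.MS.E.TP

/-!
# MSB-Trans: transitivity in the split case

`trans_split`: the two algebras are isomorphic by `split_iso`: `Φ : T.alg ≃ₐ T'.alg`. `T` is a basis of `T.alg` and `T'`
of `T'.alg` (independent, number `card ι = N² =` dimension). Write `Φ (T i) = ∑_a γ_{ai} T' a`, `γ ∈ GL_ι(K)`;
replace `T'` by `T'.act γ 1`: now `Φ (T i) = T' i`. So `ρ_j` and `ρ'_j ∘ Φ` are two families of `p` commuting
homomorphisms `T.alg → M_V(K)`. With `exists_TP` they give two homomorphisms `φ, φ' : B →ₐ M_V(K)`, both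
bijective; `φ' ∘ φ⁻¹` is an automorphism of `M_V(K)`, so it is conjugation by some `h ∈ GL_V(K)`
(`AlgEquiv.eq_linearEquivConjAlgEquiv` in Mathlib/LinearAlgebra/GeneralLinearGroup/AlgEquiv, via
`Matrix.toLinAlgEquiv'`). Then `ρ'_j (Φ x) = h⁻¹ ρ_j(x) h` for all `j`, in particular for `x = T i`.
-/

set_option autoImplicit false

namespace Pool.Agent.MS.PB

open scoped Matrix TensorProduct
open Pool.Agent.BrCyc

variable {p : ℕ} {ι V K : Type} [Field K] [Fintype V] [DecidableEq V]

theorem Fam.trans_split [Fintype ι] [DecidableEq ι] {N : ℕ} {T T' : Fam p ι V K}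
    (h : T.IsForm N) (h' : T'.IsForm N) (hV : Fintype.card V = N ^ p)
    (hι : Fintype.card ι = N ^ 2) (h0 : Br.mk T.alg h.csa = 0) (h0' : Br.mk T'.alg h'.csa = 0) :
    ∃ (g : GL ι K) (l : GL V K), T' = T.act g l := by
  sorry

end Pool.Agent.MS.PB
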