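import Pool.Agent.MS.E.Pkg
import Pool.Agent.MS.E.Corr
import Pool.Agent.MS.E.Trans
import Pool.Agent.MS.E.PathGen
import Pool.Agent.MS.E.RootR
import Pool.Agent.MS.E.ResCmp
import Pool.Agent.MS.E.Miln
import Pool.Agent.MS.E.RegMap
import Pool.Agent.D7.BSep
import Pool.Agent.helper6.MK.Poly

/-!
# MSB-EndB: Theorem B from Theorem A (section 2 of /team-store/e58350_A6.md)
-/

set_option autoImplicit false

namespace Pool.Agent.MS.PB

open Pool.Agent.BrCyc
open Polynomial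

/-- the Brauer group of an algebraically closed field is trivial -/
theorem br_algClosed {K : Type} [Field K] [IsAlgClosed K] {A : Type} [Ring A] [Algebra K A]
    (hA : IsCSA K A) : Br.mk A hA = 0 := by
  obtain ⟨n, hn, ⟨e⟩⟩ := Pool.Agent.D7.sep_split hA
  have : Nonempty (Fin n) := ⟨⟨0, hn⟩⟩
  rw [Br.mk_eq_zero_iff]
  exact (Sim.of_algEquiv e).trans (sim_matrix_self K (Fin n))

theorem hh_one {p : ℕ} {L : Type} [Field L] (ξ : L) (x : K2 L) : hh (p ^ 1) ξ x = hh p ξ x := by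
  rw [pow_one]

/-- `h_n (p^(n-1) x) = h_1 (x)` -/
theorem hh_iter {p : ℕ} (hM : HMulProp p) {L : Type} [Field L] (z : MuSys p L) (n : ℕ)
    (x : K2 L) : hh (p ^ (n + 1)) (z.z (n + 1)) (p ^ n • x) = hh p (z.z 1) x := by
  induction n generalizing x with
  | zero => rw [pow_zero, one_smul, zero_add, hh_one]
  | succ n ih =>
    rw [pow_succ' p n, mul_smul, hM L (n + 1) _ _ (z.prim (n + 1 + 1)), z.succ, ih]

/-- the equality of Brauer classes along the path -/
theorem class_path {p : ℕ} {ι V : Type} [Fintype ι] [DecidableEq ι] [Fintype V] [DecidableEq V]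
    {F F' E : Type} [Field F] [Field F'] [Field E] {N : ℕ} (T : Fam p ι V (FT F))
    (hT : T.IsForm N) (γ : GL ι (FT F)) (δ : GL V (FT F)) (a : F →+* F')
    (U : Fam p ι V E) (hU : U.IsForm N) (Ψ : E →+* FT F') (g : GL ι (FT F')) (l : GL V (FT F'))
    (h : U.map Ψ = ((T.act γ δ).map (mapT a)).act g l) :
    brMap Ψ (Br.mk U.alg hU.csa) = brMap (mapT a) (Br.mk T.alg hT.csa) := by
  have h1 : (T.act γ δ).IsForm N := hT.act γ δ
  have h2 : ((T.act γ δ).map (mapT a)).IsForm N := h1.map (mapT a)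
  have h3 : (((T.act γ δ).map (mapT a)).act g l).IsForm N := h2.act g l
  rw [Fam.class_map Ψ hU.csa (hU.map Ψ).csa]
  have h4 : ∀ (W : Fam p ι V (FT F')) (hW : IsCSA (FT F') W.alg)
      (_ : W = ((T.act γ δ).map (mapT a)).act g l), Br.mk W.alg hW =
      Br.mk (((T.act γ δ).map (mapT a)).act g l).alg h3.csa := by
    intro W hW e
    subst e
    rfl
  rw [h4 _ (hU.map Ψ).csa h, Fam.class_act g l h2.csa h3.csa,
    ← Fam.class_map (mapT a) h1.csa h2.csa, Fam.class_act γ δ hT.csa h1.csa]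

attribute [local instance] Pkg.fι Pkg.dι Pkg.fV Pkg.dV

/-- **Theorem B from Theorem A** -/
theorem BofA {p : ℕ} [Fact p.Prime] (hp2 : p ≠ 2) (hRL : RLProp p) (hM : HMulProp p)
    {F : Type} [Field F] {ζ : F} (hζ : IsPrimitiveRoot ζ p)
    (hA : ∀ (E : Type) [Field E] (f : F →+* E), AAt p (f ζ)) : BAt p ζ := by
  classical
  intro k hk
  have hp : p.Prime := Fact.out
  have hodd : Odd p := hp.odd_of_ne_two hp2
  have hpF : (p : F) ≠ 0 := by
    have : NeZero p := ⟨hp.ne_zero⟩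
    exact (hζ.neZero').out
  obtain ⟨P⟩ := exists_pkg hp2 hζ k
  have h1 : Br.mk P.T1.alg P.fT1.csa = 0 := by rw [P.clT1, hk]
  obtain ⟨g, l, hgl⟩ := Fam.trans_split P.fT1 P.fT0 P.cV P.cι h1 P.clT0
  obtain ⟨γ, δ, w0, w1⟩ := exists_corr P.T P.T0 P.T1 P.r0 P.r1 g l hgl.symm
  have hw : (P.T.act γ δ).IsForm P.N := P.fT.act γ δ
  have horb : ∀ (K : Type) [Field K] [IsAlgClosed K] (f : FT F →+* K),
      ∃ (γ' : GL P.ι K) (δ' : GL P.V K), (P.T.act γ δ).map f =
        (P.T0.map (f.comp (PB.cT F))).act γ' δ' := by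
    intro K _ _ f
    exact Fam.trans_split (P.fT0.map (f.comp (PB.cT F))) (hw.map f) P.cV P.cι
      (br_algClosed _) (br_algClosed _)
  obtain ⟨F', _, a, s, E, _, b, i, Ψ, U, g', l', hs, hib, hΨb, hUi, hUΨ, hreg⟩ :=
    pathGen P.T0 (P.T.act γ δ) w0 w1 horb
  have hpF' : (p : F') ≠ 0 := by
    have := (map_ne_zero a).2 hpF
    rwa [map_natCast] at this
  have hU : U.IsForm P.N := by
    refine Fam.IsForm.of_map i ?_
    rw [hUi]
    exact (P.fT0.map a).act g' l'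
  obtain ⟨n, k', LE, _, fE, z, hn, hfE, hz1, hkY⟩ :=
    hA E b (Br.mk U.alg hU.csa) (Fam.IsForm.nsmul_class hU P.cV)
  obtain ⟨L', _, f', hf'⟩ := exists_isMu hpF'
  have hprim : ∀ m : ℕ, ∃ z : FT L', IsPrimitiveRoot z (p ^ m) := by
    intro m
    obtain ⟨z, hz⟩ := hf'.prim m
    exact ⟨PB.cT L' z, hz.map_of_injective (PB.cT L').injective⟩
  obtain ⟨gi, hgi⟩ := IsMu.lift hfE ((mapT f').comp Ψ) hprim
  obtain ⟨n, rfl⟩ : ∃ m, n = m + 1 := ⟨n - 1, by omega⟩
  -- the class over `L'(t)`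
  have hz' : (z.map gi).z 1 = mapT f' (mapT a (PB.cT F ζ)) := by
    change gi (z.z 1) = _
    rw [← hz1]
    have e1 := DFunLike.congr_fun hgi (b ζ)
    have e2 := DFunLike.congr_fun hΨb ζ
    have e3 : mapT a (PB.cT F ζ) = PB.cT F' (a ζ) := DFunLike.congr_fun (mapT_cT a) ζ
    rw [RingHom.comp_apply, RingHom.comp_apply] at e1 e2
    rw [e1, e2, e3]
  have hcl : hh (p ^ (n + 1)) ((z.map gi).z (n + 1)) (K2.map (mapT f') (K2.map Ψ k')) =
      hh (p ^ (n + 1)) ((z.map gi).z (n + 1)) (p ^ n • K2.map (mapT f') (K2.map (mapT a) P.f)) := by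
    have hq : Odd (p ^ (n + 1)) := hodd.pow
    rw [hh_iter hM (z.map gi) n, hz', hh_map hodd
      ((hζ.map_of_injective (PB.cT F).injective).map_of_injective (mapT a).injective),
      hh_map hodd (hζ.map_of_injective (PB.cT F).injective), ← P.clT,
      ← class_path P.T P.fT γ δ a U hU Ψ _ _ hUΨ, ← brMap_comp, K2.map_map, ← hgi, ← K2.map_map,
      brMap_comp, ← hkY]
    exact hh_map hq (z.prim (n + 1)) gi _
  set D : K2 (FT F') := p ^ n • K2.map (mapT a) P.f - K2.map Ψ k' with hD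
  have hD0 : hh (p ^ (n + 1)) ((z.map gi).z (n + 1)) (K2.map (mapT f') D) = 0 := by
    rw [hD, map_sub, map_sub, map_nsmul, hcl, sub_self]
  -- residues
  have hres : ∀ Q : MI F', ∃ (e : ℕ) (s : Q.resˣ),
      ((acMI (FT F') Q).tameHom D).toMul ^ p ^ e = s ^ p ^ (n + 1 + e) := by
    intro Q
    obtain ⟨P', j, hj, hgen⟩ := resCmp hf' hpF' Q
    have hpP : (p : P'.res) ≠ 0 := by
      have := (map_ne_zero (j.comp (algebraMap F' Q.res))).2 hpF'
      rwa [map_natCast] at this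
    obtain ⟨ρ, hρ⟩ := hRL (FT L') P'.res (acMI (FT L') P') (uP (FT L') P'.1) (n + 1) _ _
      (acMI_v_self P') ((z.map gi).prim (n + 1)) hpP hD0
    rw [hj] at hρ
    have hζQ : IsPrimitiveRoot (algebraMap F' Q.res (a ζ)) p :=
      (hζ.map_of_injective a.injective).map_of_injective (algebraMap F' Q.res).injective
    refine root_lemma hp2 j hζQ hgen ((acMI (FT F') Q).tameHom D).toMul (n + 1) (ρ : P'.res) ?_
    have := congrArg (fun u : Additive P'.resˣ => ((u.toMul : P'.resˣ) : P'.res)) hρ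
    simp only [toMul_ofMul, Units.val_pow_eq_pow_val] at this
    rw [← this]
    rfl
  -- a uniform exponent
  have hmono : ∀ (Q : MI F') (e e' : ℕ), e ≤ e' → (∃ s : Q.resˣ,
      ((acMI (FT F') Q).tameHom D).toMul ^ p ^ e = s ^ p ^ (n + 1 + e)) → ∃ s : Q.resˣ,
      ((acMI (FT F') Q).tameHom D).toMul ^ p ^ e' = s ^ p ^ (n + 1 + e') := by
    rintro Q e e' hee ⟨s, hs⟩
    obtain ⟨d, rfl⟩ := Nat.exists_eq_add_of_le hee
    refine ⟨s, ?_⟩
    rw [pow_add, pow_mul, hs, ← pow_mul, ← pow_add, add_assoc (n + 1) e d]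
  have huni : ∃ e : ℕ, ∀ Q : MI F', ∃ s : Q.resˣ,
      ((acMI (FT F') Q).tameHom D).toMul ^ p ^ e = s ^ p ^ (n + 1 + e) := by
    choose e he using hres
    have hfin := tame_finite D
    refine ⟨hfin.toFinset.sup e, fun Q => ?_⟩
    by_cases hQ : (acMI (FT F') Q).tameHom D = 0
    · refine ⟨1, ?_⟩
      rw [hQ, toMul_zero, one_pow, one_pow]
    · exact hmono Q (e Q) _ (Finset.le_sup (f := e) (by rwa [Set.Finite.mem_toFinset])) (he Q)
  obtain ⟨e, he⟩ := huni
  obtain ⟨d, c, hdc⟩ := miln_div (p ^ e • D) (p ^ (n + 1 + e)) (fun Q => by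
    obtain ⟨s, hs⟩ := he Q
    refine ⟨s, ?_⟩
    rw [map_nsmul, ← ofMul_pow, ← hs, ofMul_pow]
    rfl)
  -- specialise at `0` and `1`
  have hsp : ∀ t : F, (∀ e, RegAt (a t) (Ψ e) (i e)) → p ^ e • (p ^ n • K2.map a (spPt t P.f) -
      K2.map i k') = p ^ (n + 1 + e) • spPt (a t) d + c := by
    intro t ht
    have := congrArg (spPt (a t)) hdc
    rw [map_add, map_nsmul, map_nsmul, sp_const, hD, map_sub, map_nsmul, sp_mapT,
      (sp_map Ψ i ht k').1] at this
    exact this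
  have e0 := hsp 0 (fun e => by rw [map_zero]; exact (hreg e).1)
  have e1 := hsp 1 (fun e => by rw [map_one]; exact (hreg e).2)
  rw [P.sp0, map_zero, smul_zero, zero_sub] at e0
  rw [P.sp1] at e1
  have e2 : (p ^ e * p ^ n) • K2.map a k = p ^ (n + 1 + e) • (spPt (a 1) d - spPt (a 0) d) := by
    have h3 : p ^ e • (p ^ n • K2.map a k) = p ^ e • (p ^ n • K2.map a k - K2.map i k') -
        p ^ e • (-(K2.map i k')) := by
      rw [← smul_sub]
      congr 1
      abel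
    rw [mul_smul, h3, e1, e0, smul_sub]
    abel
  have e3 := congrArg s e2
  rw [map_nsmul, hs, map_nsmul] at e3
  refine ⟨s (spPt (a 1) d - spPt (a 0) d), k - p • s (spPt (a 1) d - spPt (a 0) d), e + n, ?_, ?_⟩
  · rw [smul_sub, pow_add, e3, sub_eq_zero, smul_smul]
    congr 1
    ring
  · abel

end Pool.Agent.MS.PB
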