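import Pool.Agent.MS.E.Defs

/-!
# MSB-FamAlg: the algebra of a family, base change, action of `GL_ι × GL_V`

Proofs. `map_map`, `act_map`, `act_act`: entrywise; `Matrix.map_mul`, `RingHom.mapMatrix`, the inverse of
`GeneralLinearGroup.map f h` is the image of the inverse.

`alg_tensor`. Let `f : K →+* L` make `L` a `K`-algebra. Componentwise application of `f` is a ring
homomorphism `F : (Fin p → Matrix V V K) →+* (Fin p → Matrix V V L)`, it maps `T.alg` into
`(T.map f).alg` (`Algebra.adjoin_induction` or `Subalgebra` comap), this gives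
`Φ : L ⊗[K] T.alg →ₐ[L] (T.map f).alg` (`Algebra.TensorProduct.lift`).
* surjective: the range of `Φ` contains all `T.map f i` and `(T.map f).alg` is generated by them.
* injective: choose a basis `e_k` of `T.alg` over `K` (finite dimensional, a subspace of matrices). An
  element of `L ⊗ T.alg` is `∑ l_k ⊗ e_k`; its image is `∑ l_k F(e_k)`. The vectors `e_k` of the finite
  coordinate space `K^X`, `X = Fin p × V × V`, are linearly independent over `K`; hence the `F(e_k)`
  are linearly independent over `L` (there is a matrix `P` over `K` with `P e_k` = standard basis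
  vector `k`, and `f(P) F(e_k)` is the standard basis vector over `L`).
Everything else is a consequence: `IsForm.map`: comm is clear, indep as above, csa:
`IsCSA.baseChange` and `IsCSA.congr`, rk: `Module.finrank_baseChange`. `IsForm.of_map`: comm and indep by
injectivity of `f` (a relation over `K` gives one over `L`), csa: `IsCSA.descend` (file
BrCyc/CSADescent), rk. `class_map`: `Br.res_mk` and `Br.mk_eq`, `Sim.of_algEquiv` (or `brMap_mk`).

`alg_act`. `(T.act g h).alg = h⁻¹ (adjoin (range T')) h` with `T' i = ∑_a g_{ai} T a`, and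
`adjoin (range T') = T.alg` since each family is a linear combination of the other (use `g⁻¹`).
Conjugation by `h` in every component is an algebra automorphism of `Fin p → Matrix V V K`.
-/

set_option autoImplicit false

namespace Pool.Agent.MS.PB

open scoped Matrix TensorProduct
open Pool.Agent.BrCyc

variable {p : ℕ} {ι V : Type}

section Ring

variable {R S Q : Type} [CommRing R] [CommRing S] [CommRing Q]

theorem Fam.map_map (T : Fam p ι V R) (f : R →+* S) (g : S →+* Q) :
    (T.map f).map g = T.map (g.comp f) := by
  sorry

theorem Fam.Comm.map [Fintype V] {T : Fam p ι V R} (h : T.Comm) (f : R →+* S) :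
    (T.map f).Comm := by
  sorry

variable [Fintype ι] [DecidableEq ι] [Fintype V] [DecidableEq V]

theorem Fam.act_map (T : Fam p ι V R) (g : GL ι R) (h : GL V R) (f : R →+* S) :
    (T.act g h).map f =
      (T.map f).act (Matrix.GeneralLinearGroup.map f g) (Matrix.GeneralLinearGroup.map f h) := by
  sorry

theorem Fam.act_act (T : Fam p ι V R) (g g' : GL ι R) (h h' : GL V R) :
    (T.act g h).act g' h' = T.act (g * g') (h * h') := by
  sorry

theorem Fam.act_one (T : Fam p ι V R) : T.act 1 1 = T := by
  sorry

theorem Fam.Comm.act {T : Fam p ι V R} (hT : T.Comm) (g : GL ι R) (h : GL V R) :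
    (T.act g h).Comm := by
  sorry

end Ring

section Field

variable {K L : Type} [Field K] [Field L] [Fintype V] [DecidableEq V]

theorem Fam.alg_tensor (T : Fam p ι V K) (f : K →+* L) :
    letI := f.toAlgebra
    Nonempty (L ⊗[K] T.alg ≃ₐ[L] (T.map f).alg) := by
  sorry

theorem Fam.IsForm.map {N : ℕ} {T : Fam p ι V K} (h : T.IsForm N) (f : K →+* L) :
    (T.map f).IsForm N := by
  sorry

theorem Fam.IsForm.of_map {N : ℕ} {T : Fam p ι V K} (f : K →+* L) (h : (T.map f).IsForm N) :
    T.IsForm N := by
  sorry

theorem Fam.class_map {T : Fam p ι V K} (f : K →+* L) (hc : IsCSA K T.alg)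
    (hc' : IsCSA L (T.map f).alg) : brMap f (Br.mk T.alg hc) = Br.mk (T.map f).alg hc' := by
  sorry

variable [Fintype ι] [DecidableEq ι]

theorem Fam.alg_act (T : Fam p ι V K) (g : GL ι K) (h : GL V K) :
    Nonempty ((T.act g h).alg ≃ₐ[K] T.alg) := by
  sorry

theorem Fam.IsForm.act {N : ℕ} {T : Fam p ι V K} (hT : T.IsForm N) (g : GL ι K) (h : GL V K) :
    (T.act g h).IsForm N := by
  sorry

theorem Fam.class_act {T : Fam p ι V K} (g : GL ι K) (h : GL V K) (hc : IsCSA K T.alg)
    (hc' : IsCSA K (T.act g h).alg) : Br.mk (T.act g h).alg hc' = Br.mk T.alg hc := by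
  sorry

end Field

end Pool.Agent.MS.PB
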