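import Pool.Agent.MS.E.FamAlg

/-!
# MSB-Kron: the Kronecker product of two families

`IsForm.kron`. Put `C = Fin p → Matrix (V × V') (V × V') K`. The map
`x ⊗ y ↦ (j ↦ x_j ⊗ y_j)` (Kronecker product in every component) is an algebra homomorphism
`φ : T.alg ⊗ T'.alg →ₐ C` (`Algebra.TensorProduct.lift` of `x ↦ (x_j ⊗ 1)` and `y ↦ (1 ⊗ y_j)`), injective
because the source is simple (`IsCSA.tensor`). `T`, `T'` are bases of `T.alg`, `T'.alg` (independent; they
span: see below), so `T.kron T'` is the image of the basis `T i ⊗ T' i'`, hence linearly independent and its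
span is `range φ`, which is a subalgebra; so `(T.kron T').alg = range φ ≃ T.alg ⊗ T'.alg`.
To know that `T` spans `T.alg` one needs `card ι = N²`; this is why the hypotheses `hι`, `hι'` are there.
class: `Br.mk_tensor` and `Br.mk_eq`.
-/

set_option autoImplicit false

namespace Pool.Agent.MS.PB

open scoped Matrix TensorProduct
open Pool.Agent.BrCyc

variable {p : ℕ} {ι V ι' V' : Type}

/-- the Kronecker product of two families -/
def Fam.kron {R : Type} [CommRing R] (T : Fam p ι V R) (T' : Fam p ι' V' R) :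
    Fam p (ι × ι') (V × V') R :=
  fun i j => Matrix.kroneckerMap (fun x y => x * y) (T i.1 j) (T' i.2 j)

theorem Fam.kron_apply {R : Type} [CommRing R] (T : Fam p ι V R) (T' : Fam p ι' V' R)
    (i : ι × ι') (j : Fin p) (v w : V × V') :
    T.kron T' i j v w = T i.1 j v.1 w.1 * T' i.2 j v.2 w.2 := rfl

variable {K : Type} [Field K] [Fintype V] [DecidableEq V] [Fintype V'] [DecidableEq V']
  [Fintype ι] [Fintype ι'] [DecidableEq ι] [DecidableEq ι']

theorem Fam.IsForm.kron {N N' : ℕ} {T : Fam p ι V K} {T' : Fam p ι' V' K} (h : T.IsForm N)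
    (h' : T'.IsForm N') (hι : Fintype.card ι = N ^ 2) (hι' : Fintype.card ι' = N' ^ 2) :
    (T.kron T').IsForm (N * N') := by
  sorry

theorem Fam.class_kron {N N' : ℕ} {T : Fam p ι V K} {T' : Fam p ι' V' K} (h : T.IsForm N)
    (h' : T'.IsForm N') (hι : Fintype.card ι = N ^ 2) (hι' : Fintype.card ι' = N' ^ 2)
    (hc : IsCSA K (T.kron T').alg) :
    Br.mk (T.kron T').alg hc = Br.mk T.alg h.csa + Br.mk T'.alg h'.csa := by
  sorry

end Pool.Agent.MS.PB
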