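import Pool.Agent.MS.E.Defs

/-!
# MSB-MuF: the field `F_∞`

`exists_isMu`: in an algebraic closure `Ω` of `F` let `L` be the subfield generated by the image of `F` and the
elements `z` with `z ^ p ^ n = 1` for some `n`; `Ω` contains primitive `p^n`-th roots of unity as `p ≠ 0` in `F`
(`IsCyclotomicExtension`, `HasEnoughRootsOfUnity` or `IsSepClosed`). `gen`: `Subfield.comap` / `closure`.

`exists_muSys`: choose recursively `z 0 = 1`, `z 1 = ζ`, `z (n+1)` a `p`-th root of `z n`: if `w` is a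
primitive `p^(n+1)`-th root then `z n` (primitive `p^n`-th, `n ≥ 1`) is `(w^p)^k` with `k` prime to `p`,
put `z (n+1) = w^k`, primitive (`IsPrimitiveRoot.pow_of_coprime`).

`IsMu.isAlgebraic`: the elements of `L` integral over `f.range` form a subfield containing `f F` and the
roots of unity. Same for separable (`separableClosure`), `p ≠ 0`.

`IsMu.lift`: `L / F` is algebraic and generated by the roots of unity `z`; each of them has a minimal
polynomial dividing `X^(p^n) - 1`, which splits over `K` (as `K` contains a primitive `p^n`-th root of unity):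
`IntermediateField.nonempty_algHom_of_adjoin_splits` or `IntermediateField.exists_algHom_of_adjoin_splits`.

`SS.all`: given `n, k, L, f, z` and another `L', f', z'`. `IsMu.lift` gives `g : L →+* L'` over `F`; so over `L'`
`hh (p^n) (g (z n)) k = brMap f' x`. `z' n = (g (z n))^c` with `c` prime to `p`, `c ≡ 1 mod p` (`z' 1 = f' ζ = g (z 1)`,
`n ≥ 1`). `IsSymb.pow` (BrCyc/SymbOps): `(a, b)_ξ = (a, b^c)_{ξ^c}`, so `hh q ξ y = hh q (ξ^c) (c • y)`. Hence
`hh (p^n) (z' n) (c • k) = brMap f' x`.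
-/

set_option autoImplicit false

namespace Pool.Agent.MS.PB

open Pool.Agent.BrCyc
open Polynomial

variable {p : ℕ} [Fact p.Prime]

private theorem MuF_prim {Ω : Type} [Field Ω] [IsAlgClosed Ω] (hp : (p : Ω) ≠ 0) (n : ℕ) :
    ∃ z : Ω, IsPrimitiveRoot z (p ^ n) := by
  have hpp : p.Prime := Fact.out
  have hne : NeZero ((p ^ n : ℕ) : Ω) := ⟨by rw [Nat.cast_pow]; exact pow_ne_zero _ hp⟩
  have hpos : 0 < p ^ n := pow_pos hpp.pos n
  obtain ⟨z, hz⟩ := IsAlgClosed.exists_root (cyclotomic (p ^ n) Ω)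
    (degree_cyclotomic_pos (p ^ n) Ω hpos).ne'
  exact ⟨z, isRoot_cyclotomic_iff.1 hz⟩

theorem exists_isMu {F : Type} [Field F] (hp : (p : F) ≠ 0) :
    ∃ (L : Type) (_ : Field L) (f : F →+* L), IsMu p f := by
  have hp' : (p : AlgebraicClosure F) ≠ 0 := by
    intro h
    apply hp
    apply (algebraMap F (AlgebraicClosure F)).injective
    rw [map_natCast, h, map_zero]
  let G : Set (AlgebraicClosure F) :=
    Set.range (algebraMap F (AlgebraicClosure F)) ∪ {z | ∃ n : ℕ, z ^ p ^ n = 1}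
  let S : Subfield (AlgebraicClosure F) := Subfield.closure G
  have hG : G ⊆ S := Subfield.subset_closure
  have hF : ∀ c : F, algebraMap F (AlgebraicClosure F) c ∈ S := fun c => hG (Or.inl ⟨c, rfl⟩)
  refine ⟨S, inferInstance, (algebraMap F (AlgebraicClosure F)).codRestrict S hF, ?_, ?_⟩
  · intro n
    obtain ⟨z, hz⟩ := MuF_prim (p := p) hp' n
    have hzS : z ∈ S := hG (Or.inr ⟨n, hz.pow_eq_one⟩)
    exact ⟨⟨z, hzS⟩, IsPrimitiveRoot.of_map_of_injective (f := S.subtype) hz S.subtype_injective⟩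
  · intro T hT1 hT2
    have hle : S ≤ T.map S.subtype := by
      refine Subfield.closure_le.2 ?_
      rintro x (⟨c, rfl⟩ | ⟨n, hn⟩)
      · exact ⟨⟨_, hF c⟩, hT1 c, rfl⟩
      · have hxS : x ∈ S := hG (Or.inr ⟨n, hn⟩)
        exact ⟨⟨x, hxS⟩, hT2 n ⟨x, hxS⟩ (Subtype.ext hn), rfl⟩
    refine eq_top_iff.2 fun x _ => ?_
    obtain ⟨y, hy, hyx⟩ := hle x.2
    have : y = x := Subtype.ext hyx
    rwa [this] at hy

private theorem MuF_step {L : Type} [Field L] (h : ∀ n : ℕ, ∃ z : L, IsPrimitiveRoot z (p ^ n))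
    (n : ℕ) (w : L) (hw : IsPrimitiveRoot w (p ^ (n + 1))) :
    ∃ w' : L, IsPrimitiveRoot w' (p ^ (n + 2)) ∧ w' ^ p = w := by
  have hpp : p.Prime := Fact.out
  obtain ⟨u, hu⟩ := h (n + 2)
  have hup : IsPrimitiveRoot (u ^ p) (p ^ (n + 1)) :=
    hu.pow (pow_pos hpp.pos _) (by rw [pow_succ' p (n + 1)])
  have : NeZero (p ^ (n + 1)) := ⟨(pow_pos hpp.pos _).ne'⟩
  obtain ⟨k, -, hk, hkw⟩ := hup.isPrimitiveRoot_iff.1 hw
  have hk' : Nat.Coprime k p := Nat.Coprime.coprime_dvd_right (dvd_pow_self p (Nat.succ_ne_zero n)) hk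
  refine ⟨u ^ k, hu.pow_of_coprime k (hk'.pow_right _), ?_⟩
  rw [← hkw, ← pow_mul, ← pow_mul, mul_comm]

theorem exists_muSys {L : Type} [Field L] (h : ∀ n : ℕ, ∃ z : L, IsPrimitiveRoot z (p ^ n))
    {ζ : L} (hζ : IsPrimitiveRoot ζ p) : ∃ z : MuSys p L, z.z 1 = ζ := by
  choose! st h1 h2 using fun (n : ℕ) (w : L) (hw : IsPrimitiveRoot w (p ^ (n + 1))) =>
    MuF_step h n w hw
  let s : ℕ → L := fun n => Nat.rec ζ (fun n w => st n w) n
  have hs0 : s 0 = ζ := rfl
  have hs1 : ∀ n, s (n + 1) = st n (s n) := fun n => rfl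
  have hs : ∀ n, IsPrimitiveRoot (s n) (p ^ (n + 1)) := by
    intro n
    induction n with
    | zero => rw [hs0, zero_add, pow_one]; exact hζ
    | succ n ih => rw [hs1]; exact h1 n _ ih
  refine ⟨⟨fun n => Nat.casesOn n 1 s, ?_, ?_⟩, rfl⟩
  · intro n
    cases n with
    | zero => rw [pow_zero]; exact IsPrimitiveRoot.one
    | succ n => exact hs n
  · intro n
    cases n with
    | zero => exact hζ.pow_eq_one
    | succ n => exact h2 n _ (hs n)

theorem IsMu.isAlgebraic {F L : Type} [Field F] [Field L] {f : F →+* L} (hf : IsMu p f) :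
    letI := f.toAlgebra
    Algebra.IsAlgebraic F L := by
  letI := f.toAlgebra
  have hpp : p.Prime := Fact.out
  have hS := hf.gen (algebraicClosure F L).toSubfield (fun c => (algebraicClosure F L).algebraMap_mem c)
    (fun n z hz => by
      change z ∈ algebraicClosure F L
      rw [mem_algebraicClosure_iff']
      refine IsIntegral.of_pow (pow_pos hpp.pos n) ?_
      rw [hz]
      exact isIntegral_one)
  refine ⟨fun x => ?_⟩
  have hx : x ∈ (algebraicClosure F L).toSubfield := by rw [hS]; trivial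
  exact mem_algebraicClosure_iff.1 hx

theorem IsMu.isSeparable {F L : Type} [Field F] [Field L] {f : F →+* L} (hf : IsMu p f)
    (hp : (p : F) ≠ 0) :
    letI := f.toAlgebra
    Algebra.IsSeparable F L := by
  letI := f.toAlgebra
  have hpp : p.Prime := Fact.out
  have hS := hf.gen (separableClosure F L).toSubfield (fun c => (separableClosure F L).algebraMap_mem c)
    (fun n z hz => by
      change z ∈ separableClosure F L
      rw [mem_separableClosure_iff]
      have hd : minpoly F z ∣ (X ^ p ^ n - 1 : F[X]) := by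
        refine minpoly.dvd F z ?_
        rw [map_sub, map_pow, aeval_X, map_one, hz, sub_self]
      exact Separable.of_dvd (X_pow_sub_one_separable_iff.2 (by
        rw [Nat.cast_pow]; exact pow_ne_zero _ hp)) hd)
  refine ⟨fun x => ?_⟩
  have hx : x ∈ (separableClosure F L).toSubfield := by rw [hS]; trivial
  exact mem_separableClosure_iff.1 hx

theorem IsMu.lift {F L K : Type} [Field F] [Field L] [Field K] {f : F →+* L} (hf : IsMu p f)
    (g : F →+* K) (hK : ∀ n : ℕ, ∃ z : K, IsPrimitiveRoot z (p ^ n)) :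
    ∃ g' : L →+* K, g'.comp f = g := by
  letI := f.toAlgebra
  letI := g.toAlgebra
  have hpp : p.Prime := Fact.out
  let S : Set L := {z | ∃ n : ℕ, z ^ p ^ n = 1}
  have hS : IntermediateField.adjoin F S = ⊤ := by
    have h1 := hf.gen (IntermediateField.adjoin F S).toSubfield
      (fun c => (IntermediateField.adjoin F S).algebraMap_mem c)
      (fun n z hz => IntermediateField.subset_adjoin F S ⟨n, hz⟩)
    refine eq_top_iff.2 fun x _ => ?_
    have hx : x ∈ (IntermediateField.adjoin F S).toSubfield := by rw [h1]; trivial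
    exact hx
  have hsp : ∀ s ∈ S, IsIntegral F s ∧ ((minpoly F s).map (algebraMap F K)).Splits := by
    rintro s ⟨n, hn⟩
    refine ⟨IsIntegral.of_pow (pow_pos hpp.pos n) (by rw [hn]; exact isIntegral_one), ?_⟩
    have hd : minpoly F s ∣ (X ^ p ^ n - 1 : F[X]) := by
      refine minpoly.dvd F s ?_
      rw [map_sub, map_pow, aeval_X, map_one, hn, sub_self]
    have hd' : (minpoly F s).map (algebraMap F K) ∣ (X ^ p ^ n - C (1 : K) : K[X]) := by
      have := Polynomial.map_dvd (algebraMap F K) hd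
      rwa [Polynomial.map_sub, Polynomial.map_pow, Polynomial.map_X, Polynomial.map_one,
        ← C_1] at this
    obtain ⟨z, hz⟩ := hK n
    exact (X_pow_sub_one_splits hz).of_dvd
      (X_pow_sub_C_ne_zero (pow_pos hpp.pos n) 1) hd'
  obtain ⟨φ⟩ := IntermediateField.nonempty_algHom_of_adjoin_splits hsp hS
  exact ⟨φ.toRingHom, RingHom.ext fun c => φ.commutes c⟩

/-- the symbol map for a power of the root of unity -/
theorem hh_pow {q : ℕ} (hq : Odd q) {L : Type} [Field L] {ξ : L} (hξ : IsPrimitiveRoot ξ q) (c : ℕ)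
    (hc : Nat.Coprime c q) (y : K2 L) : hh q (ξ ^ c) (c • y) = hh q ξ y := by
  have hξ' : IsPrimitiveRoot (ξ ^ c) q := hξ.pow_of_coprime c hc
  have : NeZero q := ⟨hq.pos.ne'⟩
  have hsy : ∀ (a b : Lˣ) (n : ℕ), n • sy a b = sy a (b ^ n) := by
    intro a b n
    induction n with
    | zero =>
      rw [zero_smul, pow_zero]
      have h := sy_mul_right a 1 1
      rw [mul_one] at h
      exact (left_eq_add.1 h).symm
    | succ n ih => rw [succ_nsmul, ih, pow_succ, sy_mul_right]
  have key : (hh q (ξ ^ c)).comp (nsmulAddMonoidHom (α := K2 L) c) = hh q ξ := by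
    refine K2.hom_ext _ _ fun a b => ?_
    obtain ⟨A, _, _, hA, hcs, h1⟩ := hh_sy hq hξ a b
    rw [h1, AddMonoidHom.comp_apply, nsmulAddMonoidHom_apply, hsy]
    refine hh_spec hq hξ' _ _ A _ _ ?_ hcs
    rw [Units.val_pow_eq_pow_val]
    exact hA.pow c
  exact DFunLike.congr_fun key y

/-- `S(F, x)` does not depend on the choices of `F_∞` and of the roots of unity -/
theorem SS.all (hp2 : p ≠ 2) {F : Type} [Field F] {ζ : F} {x : Br F} (hx : SS p ζ x) {L : Type}
    [Field L] (f : F →+* L) (hf : IsMu p f) (z : MuSys p L) (hz : f ζ = z.z 1) :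
    ∃ (n : ℕ) (k : K2 F), 0 < n ∧ hh (p ^ n) (z.z n) (K2.map f k) = brMap f x := by
  have hpp : p.Prime := Fact.out
  have hodd : Odd p := hpp.odd_of_ne_two hp2
  obtain ⟨n, k, L₀, _, f₀, z₀, hn, hf₀, hz₀, h⟩ := hx
  obtain ⟨g, hg⟩ := IsMu.lift hf₀ f hf.prim
  have hne : NeZero (p ^ n) := ⟨(pow_pos hpp.pos n).ne'⟩
  have h1 : hh (p ^ n) (g (z₀.z n)) (K2.map f k) = brMap f x := by
    have h2 := hh_map (hodd.pow (n := n)) (z₀.prim n) g (K2.map f₀ k)
    rw [h, ← brMap_comp, hg] at h2
    rw [← h2]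
    congr 1
    have h3 : (K2.map g).comp (K2.map f₀) = K2.map f := by
      refine K2.hom_ext _ _ fun a b => ?_
      rw [AddMonoidHom.comp_apply, K2.map_sy, K2.map_sy, K2.map_sy]
      subst hg
      rfl
    rw [← h3]
    rfl
  obtain ⟨c, -, hc, hcz⟩ := (((z₀.prim n).map_of_injective g.injective).isPrimitiveRoot_iff).1 (z.prim n)
  refine ⟨n, c • k, hn, ?_⟩
  rw [← hcz, map_nsmul, hh_pow (hodd.pow (n := n)) ((z₀.prim n).map_of_injective g.injective) c hc, h1]

end Pool.Agent.MS.PB
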