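import Pool.Agent.MS.E.FamAlg

/-!
# MSB-Raw: the explicit family of one symbol algebra

`V = Fin p → ZMod p` (`p` slots), `piK M` = the Kronecker product of the matrices `M s` over the slots `s`.
`piK` is multiplicative: `∑_u ∏_s M_s(w_s,u_s) M'_s(u_s,v_s) = ∏_s ∑_c M_s(w_s,c) M'_s(c,v_s)`
(`Finset.prod_univ_sum`), `piK 1 = 1`, `piK (c_s • M_s) = (∏ c_s) • piK M`.

`Cm a` : `e_i ↦ e_{i+1}`, with the factor `a` if `i + 1 = 0`; `Ci b'` is the inverse of `Cm b` if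
`b b' = 1`; `Dm ζ = diag(ζ^i)`. One slot (`ζ^p = 1`): `(Cm a)^p = a`, `(Dm ζ)^p = 1`,
`Dm ζ * Cm a = ζ • (Cm a * Dm ζ)`, `Cm b * Dm ζ⁻¹ = ζ • (Dm ζ⁻¹ * Cm b)`,
`Dm ζ⁻¹ * Ci b' = ζ • (Ci b' * Dm ζ⁻¹)`, `ζ⁻¹ = ζ^(p-1)`.

`X_j = piK (xs j)`: `Cm a` in the slot `0`, and `Dm ζ⁻¹` in the slot `j` if `j ≠ 0`.
`Y_j = piK (ys j)`: for `j ≠ 0`: `Cm b` in the slot `j`; `Y_0`: `b Dm ζ` in the slot `0` and `Ci b'` in all
the other slots. Then (slot by slot, with scalars):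
* `X_j^p = a`; `Y_j^p = b` (`Y_0^p = b^p (b')^{p-1} = b`); `Y_j X_j = ζ X_j Y_j`;
* for `j ≠ j'`: `X_j X_j' = X_j' X_j`, `Y_j Y_j' = Y_j' Y_j`, `X_j Y_j' = Y_j' X_j` (for `j' = 0`: the slot
  `0` gives `Cm a * (b Dm ζ) = ζ⁻¹ (b Dm ζ) * Cm a` and the slot `j` gives `ζ`).
So `x = (X_j)_j`, `y = (Y_j)_j` in `C = Fin p → Matrix V V K` are symbol generators:
`SymbGen p ζ a b x y`, and `raw k j = X_j^{k.1} Y_j^{k.2}`, `raw k = x^{k.1} * y^{k.2}`.

`raw_isForm`: comm from the above. Let `A` be a symbol algebra (`exists_symb`), `A → C` the homomorphism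
with `x' ↦ x`, `y' ↦ y` (`symb_hom`), injective since `A` is simple (`IsSymb.isCSA`); its range is generated
by `x, y`, as is `raw.alg`. So `raw.alg ≃ A`: CSA, dimension `p²`; independence: `symb_indep` (file
BrCyc/SymbBasis). `raw_class`: `IsSymb p ζ a b raw.alg` (`IsSymb.congr`) and `hh_spec`.
-/

set_option autoImplicit false

namespace Pool.Agent.MS.PB

open scoped Matrix
open Pool.Agent.BrCyc

variable {p : ℕ} [Fact p.Prime]

section Ring

variable {R : Type} [CommRing R]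

/-- the companion matrix of `X^p - a` -/
def Cm (p : ℕ) [Fact p.Prime] (a : R) : Matrix (ZMod p) (ZMod p) R :=
  fun i j => if i = j + 1 then (if i = 0 then a else 1) else 0

/-- the inverse of `Cm b` if `b b' = 1` -/
def Ci (p : ℕ) [Fact p.Prime] (b' : R) : Matrix (ZMod p) (ZMod p) R :=
  fun i j => if j = i + 1 then (if j = 0 then b' else 1) else 0

/-- the diagonal matrix of the powers of `ζ` -/
def Dm (p : ℕ) [Fact p.Prime] (ζ : R) : Matrix (ZMod p) (ZMod p) R :=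
  Matrix.diagonal fun i => ζ ^ i.val

/-- the Kronecker product over the slots -/
def piK (M : Fin p → Matrix (ZMod p) (ZMod p) R) :
    Matrix (Fin p → ZMod p) (Fin p → ZMod p) R :=
  fun w v => ∏ s, M s (w s) (v s)

/-- the components of `X_j` -/
def xs (ζ a : R) (j l : Fin p) : Matrix (ZMod p) (ZMod p) R :=
  if l.val = 0 then Cm p a else if l = j then Dm p (ζ ^ (p - 1)) else 1

/-- the components of `Y_j` -/
def ys (ζ b b' : R) (j l : Fin p) : Matrix (ZMod p) (ZMod p) R :=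
  if j.val = 0 then (if l.val = 0 then b • Dm p ζ else Ci p b') else if l = j then Cm p b else 1

/-- the family of the symbol algebra `(a, b)_ζ`, `b' = b⁻¹` -/
def raw (ζ a b b' : R) : Fam p (Fin p × Fin p) (Fin p → ZMod p) R :=
  fun k j => piK fun l => xs ζ a j l ^ (k.1 : ℕ) * ys ζ b b' j l ^ (k.2 : ℕ)

end Ring

theorem raw_map {R S : Type} [CommRing R] [CommRing S] (f : R →+* S) (ζ a b b' : R) :
    Fam.map (raw (p := p) ζ a b b') f = raw (f ζ) (f a) (f b) (f b') := by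
  sorry

theorem raw_isForm {K : Type} [Field K] {ζ a b b' : K} (hζ : IsPrimitiveRoot ζ p) (ha : a ≠ 0)
    (hb : b * b' = 1) : Fam.IsForm p (raw (p := p) ζ a b b') := by
  sorry

theorem raw_class {K : Type} [Field K] (hp2 : p ≠ 2) {ζ : K} (hζ : IsPrimitiveRoot ζ p) (a b : Kˣ)
    (b' : K) (hb : (b : K) * b' = 1) (hc : IsCSA K (Fam.alg (raw (p := p) ζ (a : K) b b'))) :
    Br.mk (Fam.alg (raw (p := p) ζ (a : K) b b')) hc = hh p ζ (sy a b) := by
  sorry

end Pool.Agent.MS.PB
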