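import Pool.Agent.MS.E.Kron
import Pool.Agent.MS.E.Raw
import Pool.Agent.MS.E.Reg

/-!
# MSB-Pkg: every `k ∈ K_2(F)` has a path of families from a split family to a family with class `h_1(k)`

Induction `K2.ind` on `k` (statement `Nonempty (Pkg p ζ k)`):
* `0`: the package of the symbol `{1, 1}` (equal to `0`, `sy_one_left`).
* `{a, b}`: `T = raw ζ (1 + t (a - 1)) b b⁻¹` over `F(t)`, `T0 = raw ζ 1 b b⁻¹`, `T1 = raw ζ a b b⁻¹`,
  `N = p`, `f = {1 + t (a - 1), b}`. `1 + t (a-1)` is a nonzero polynomial with values `1` at `0` and `a` at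
  `1`. Regularity: the polynomial ring: `raw` over `F[X]` maps to `T`, and to `T0`, `T1` by evaluation
  (`raw_map` for `F[X] → F(t)` and `evalRingHom`), and `RegAt.poly`. Classes: `raw_class`; `{1, b} = 0`.
  `spPt 0 f = {1, b} = 0`, `spPt 1 f = {a, b}`: `RegAt.v_ac`.
* `k + k'`: Kronecker products (`IsForm.kron`, `class_kron`), `f + f'`; `RegAt.mul`;
  cardinalities: `Fintype.card_prod`, `mul_pow`.
-/

set_option autoImplicit false

namespace Pool.Agent.MS.PB

open scoped Matrix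
open Pool.Agent.BrCyc
open Polynomial

/-- a path of families over `F(t)` from a split family to a family with the class `h_1(k)` -/
structure Pkg (p : ℕ) [Fact p.Prime] {F : Type} [Field F] (ζ : F) (k : K2 F) where
  ι : Type
  V : Type
  [fι : Fintype ι]
  [dι : DecidableEq ι]
  [fV : Fintype V]
  [dV : DecidableEq V]
  N : ℕ
  cι : Fintype.card ι = N ^ 2
  cV : Fintype.card V = N ^ p
  T : Fam p ι V (FT F)
  T0 : Fam p ι V F
  T1 : Fam p ι V F
  r0 : ∀ i j, RegM 0 (T i j) (T0 i j)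
  r1 : ∀ i j, RegM 1 (T i j) (T1 i j)
  fT : T.IsForm N
  fT0 : T0.IsForm N
  fT1 : T1.IsForm N
  f : K2 (FT F)
  clT : Br.mk T.alg fT.csa = hh p (PB.cT F ζ) f
  clT0 : Br.mk T0.alg fT0.csa = 0
  clT1 : Br.mk T1.alg fT1.csa = hh p ζ k
  sp0 : spPt 0 f = 0
  sp1 : spPt 1 f = k

theorem exists_pkg {p : ℕ} [Fact p.Prime] (hp2 : p ≠ 2) {F : Type} [Field F] {ζ : F}
    (hζ : IsPrimitiveRoot ζ p) (k : K2 F) : Nonempty (Pkg p ζ k) := by
  sorry

end Pool.Agent.MS.PB
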